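import Pool.Agent.K4H55.BK.Cob
import Pool.Agent.Y667.BKP.Main
import Pool.Agent.R390.NoInv

/-!
The Tate-Shafarevich group and the Selmer group of Bloch and Kato of the twist.
-/

set_option autoImplicit false
set_option linter.all false

open NumberField IsDedekindDomain WithZero WeierstrassCurve WeierstrassCurve.Affine
open scoped Classical TensorProduct

namespace Pool.Agent.K4H55.BK

open Pool.Agent.TH115.GD hiding crv
open Pool.Agent.K4H55.BD (crv low theta_int mem_low SelTriv LocIm Cub)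

section idp

variable {K : Type} [Field K] (W : WeierstrassCurve K)

/-- the identity -/
noncomputable def idp (L : Type) [Field L] [Algebra K L] :
    Pool.Agent.TH841.SH.D.Pt W L →+ Pt W L where
  toFun := fun P => P
  map_zero' := rfl
  map_add' := fun P Q => rfl

lemma idp_inj (L : Type) [Field L] [Algebra K L] : Function.Injective (idp W L) := fun P Q h => h

lemma idp_surj (L : Type) [Field L] [Algebra K L] (Q : Pt W L) : ∃ P, idp W L P = Q := ⟨Q, rfl⟩

lemma idp_act {L L' : Type} [Field L] [Field L'] [Algebra K L] [Algebra K L'] (φ : L →ₐ[K] L')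
    (P : Pool.Agent.TH841.SH.D.Pt W L) :
    idp W L' (Pool.Agent.TH841.SH.D.act W φ P) = act W φ (idp W L P) := rfl

end idp

variable {K : Type} [Field K] [NumberField K]

/-- no element of order two in the Tate-Shafarevich group -/
theorem sha_two {W : WeierstrassCurve K} {α β γ : AlgebraicClosure K}
    (hC : IsC (W.baseChange (AlgebraicClosure K)).toAffine α β γ)
    (hS : ∀ f : (AlgebraicClosure K ≃ₐ[K] AlgebraicClosure K) → Pt W (AlgebraicClosure K),
      IsCoc W f → (∀ σ, f σ + f σ = 0) →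
      (∀ v : HeightOneSpectrum (𝓞 K),
        LocTriv W (v.adicCompletion K) (AlgebraicClosure (v.adicCompletion K)) f) →
      ∃ T : Pt W (AlgebraicClosure K), T + T = 0 ∧
        ∀ σ : AlgebraicClosure K ≃ₐ[K] AlgebraicClosure K, f σ = act W (rs K σ) T - T)
    (s : Pool.Agent.TH841.NF.D.Sha W) (hs : 2 • s = 0) : s = 0 := by
  obtain ⟨f, rfl⟩ := QuotientAddGroup.mk_surjective
    (s := (Pool.Agent.TH841.SH.D.cob W).addSubgroupOf
      (Pool.Agent.TH841.NF.D.shaCoc W)) s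
  have h2 : (QuotientAddGroup.mk (2 • f) : (Pool.Agent.TH841.NF.D.shaCoc W) ⧸
    (Pool.Agent.TH841.SH.D.cob W).addSubgroupOf
      (Pool.Agent.TH841.NF.D.shaCoc W)) = 0 := hs
  rw [QuotientAddGroup.eq_zero_iff, AddSubgroup.mem_addSubgroupOf] at h2
  obtain ⟨P, hP⟩ := h2
  have hP' : ∀ σ, f.1 σ + f.1 σ = Pool.Agent.TH841.SH.D.act W σ.toAlgHom P - P := by
    intro σ
    rw [← hP σ, two_nsmul]
    rfl
  obtain ⟨Q, hQ⟩ := halveC hC (idp W (AlgebraicClosure K) P)
  have nat : ∀ (σ : AlgebraicClosure K ≃ₐ[K] AlgebraicClosure K)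
      (R : Pool.Agent.TH841.SH.D.Pt W (AlgebraicClosure K)),
      idp W (AlgebraicClosure K) (Pool.Agent.TH841.SH.D.act W σ.toAlgHom R) =
        act W (rs K σ) (idp W (AlgebraicClosure K) R) := fun σ R => rfl
  let g : (AlgebraicClosure K ≃ₐ[K] AlgebraicClosure K) → Pt W (AlgebraicClosure K) :=
    fun σ => idp W (AlgebraicClosure K) (f.1 σ)
  have hgc : IsCoc W g := by
    refine ⟨f.2.1.1.comp _, fun σ τ => ?_⟩
    show idp W (AlgebraicClosure K) (f.1 (σ * τ)) = idp W (AlgebraicClosure K) (f.1 σ) +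
      act W (rs K σ) (idp W (AlgebraicClosure K) (f.1 τ))
    rw [f.2.1.2, map_add, nat]
  have hgloc : ∀ v : HeightOneSpectrum (𝓞 K),
      LocTriv W (v.adicCompletion K) (AlgebraicClosure (v.adicCompletion K)) g := by
    intro v
    let ι : AlgebraicClosure K →ₐ[K] AlgebraicClosure (v.adicCompletion K) := IsAlgClosed.lift
    obtain ⟨P0, hP0⟩ := f.2.2.1 v ι
    refine ⟨ι, idp W _ P0, fun τ σ h => ?_⟩
    have h1 := hP0 τ σ h
    exact h1
  have hg2 : ∀ σ, g σ + g σ = act W (rs K σ) (idp W (AlgebraicClosure K) P) -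
      idp W (AlgebraicClosure K) P := by
    intro σ
    show idp W (AlgebraicClosure K) (f.1 σ) + idp W (AlgebraicClosure K) (f.1 σ) = _
    rw [← map_add, hP', map_sub, nat]
  obtain ⟨T, hT, h3⟩ := hS (fun σ => g σ - (act W (rs K σ) Q - Q))
    (hgc.sub W (cob_isCoc W Q)) (fun σ => by
      have hQ' : Q + Q = idp W (AlgebraicClosure K) P := hQ
      have e2 : (act W (rs K σ) Q - Q) + (act W (rs K σ) Q - Q) =
          act W (rs K σ) (idp W (AlgebraicClosure K) P) - idp W (AlgebraicClosure K) P := by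
        rw [sub_add_sub_comm, ← map_add]
        exact congrArg (fun z => act W (rs K σ) z - z) hQ'
      have e3 := hg2 σ
      show (g σ - (act W (rs K σ) Q - Q)) + (g σ - (act W (rs K σ) Q - Q)) = 0
      rw [sub_add_sub_comm, e2, e3, sub_self])
    (fun v => LocTriv.sub W (hgloc v) Q)
  obtain ⟨R, hR⟩ := idp_surj W (AlgebraicClosure K) (Q + T)
  have h4 : f ∈ (Pool.Agent.TH841.SH.D.cob W).addSubgroupOf
      (Pool.Agent.TH841.NF.D.shaCoc W) := by
    rw [AddSubgroup.mem_addSubgroupOf]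
    refine ⟨R, fun σ => ?_⟩
    apply idp_inj W (AlgebraicClosure K)
    rw [map_sub, nat, hR, map_add]
    have h5 := h3 σ
    have h6 : g σ = (act W (rs K σ) T - T) + (act W (rs K σ) Q - Q) := by
      rw [← h5]; abel
    show g σ = _
    rw [h6]
    abel
  exact (QuotientAddGroup.eq_zero_iff f).2 h4

lemma sha_pow {A : Type} [AddCommGroup A] (h : ∀ s : A, 2 • s = 0 → s = 0) (k : ℕ) :
    ∀ s : A, (2 ^ k : ℕ) • s = 0 → s = 0 := by
  induction k with
  | zero => intro s hs; simpa using hs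
  | succ k ih =>
    intro s hs
    apply h
    apply ih
    rw [smul_smul, ← pow_succ]
    exact hs

variable {L : Type} [Field L] [NumberField L] [Algebra K L]

/-- `Ш(E^(D)/K)[2^∞] = 0` and `H¹_f(K, V_2 E^(D)) = 0` -/
theorem bk {a b : 𝓞 K} (hΔ : 4 * a ^ 3 + 27 * b ^ 2 ≠ 0) {θ : L} (hc : Cub K θ)
    (hθ : θ ^ 3 + algebraMap K L a * θ + algebraMap K L b = 0) (hS : SelTriv a b θ)
    {D : 𝓞 K} (hD : D ≠ 0)
    (hD1 : ∀ v : HeightOneSpectrum (𝓞 K), 2 * (4 * a ^ 3 + 27 * b ^ 2) ∈ v.asIdeal →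
      IsSquare (algebraMap K (v.adicCompletion K) D))
    (hD2 : ∀ v : HeightOneSpectrum (𝓞 K), 2 * (4 * a ^ 3 + 27 * b ^ 2) ∉ v.asIdeal →
      D ∈ v.asIdeal → v.valuation K (D : K) = exp (-1 : ℤ) ∧
        ∀ X : 𝓞 K, X ^ 3 + a * X + b ∉ v.asIdeal) :
    (Finite (crv ((a : K) * (D : K) ^ 2) ((b : K) * (D : K) ^ 3)).toAffine.Point ∧
      Odd (Nat.card (crv ((a : K) * (D : K) ^ 2) ((b : K) * (D : K) ^ 3)).toAffine.Point)) ∧
    (∀ (k : ℕ) (s : Pool.Agent.TH841.NF.D.Sha (crv ((a : K) * (D : K) ^ 2)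
      ((b : K) * (D : K) ^ 3))), (2 ^ k : ℕ) • s = 0 → s = 0) ∧
    ∀ x : Pool.Agent.Y667.BKP.H1f 2 (crv ((a : K) * (D : K) ^ 2) ((b : K) * (D : K) ^ 3)),
      x = 0 := by
  have hfin := Pool.Agent.K4H55.BD.finite_twist hΔ hc hθ hS hD hD1 hD2
  have hD0 : (D : K) ≠ 0 := fun h => hD (RingOfIntegers.ext h)
  have hΔW : (crv ((a : K) * (D : K) ^ 2) ((b : K) * (D : K) ^ 3)).Δ ≠ 0 := by
    have e : (crv ((a : K) * (D : K) ^ 2) ((b : K) * (D : K) ^ 3)).Δ =
        -16 * ((D : K) ^ 6 * ((4 * a ^ 3 + 27 * b ^ 2 : 𝓞 K) : K)) := by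
      simp only [crv, WeierstrassCurve.Δ, WeierstrassCurve.b₂, WeierstrassCurve.b₄,
        WeierstrassCurve.b₆, WeierstrassCurve.b₈, map_add, map_mul, map_pow, map_ofNat]
      ring
    rw [e]
    exact mul_ne_zero (by norm_num) (mul_ne_zero (pow_ne_zero 6 hD0)
      (fun h => hΔ (RingOfIntegers.ext h)))
  have ha : cub (crv ((a : K) * (D : K) ^ 2) ((b : K) * (D : K) ^ 3))
      ((IsAlgClosed.lift : L →ₐ[K] AlgebraicClosure K) (algebraMap K L D * θ)) = 0 := by
    rw [cub_map]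
    have e : cub (crv ((a : K) * (D : K) ^ 2) ((b : K) * (D : K) ^ 3)) (algebraMap K L D * θ) =
        0 := by
      simp only [cub, crv, map_zero, map_mul, map_pow]
      linear_combination (algebraMap K L D) ^ 3 * hθ
    rw [e, map_zero]
  obtain ⟨β, γ, hC⟩ := exists_isC (K := K) (Ω := AlgebraicClosure K)
    (W := crv ((a : K) * (D : K) ^ 2) ((b : K) * (D : K) ^ 3)) rfl rfl hΔW two_ne_zero ha
  have hsha := sha_two hC (fun f hf hf2 hloc => sel_cob hΔ hc hθ hS hD hD1 hD2 rfl hf hf2 hloc)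
  refine ⟨hfin, fun k s hs => sha_pow hsha k s hs, ?_⟩
  refine Pool.Agent.Y667.BKP.h1f_zero Nat.prime_two ?_ 0 fun k x hx => ?_
  · exact hfin.1
  · rw [pow_zero, one_smul]
    exact sha_pow hsha k x hx

end Pool.Agent.K4H55.BK
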