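import Pool.Agent.K4H55.BD.Fin
import Pool.Agent.K4H55.BK.ShaB

/-!
The Selmer groups of the twists of the class.
-/

set_option autoImplicit false

namespace Pool.Agent.K4H55.BK

open NumberField IsDedekindDomain ComplexConjugate
open Pool.Agent.K4H55.BI (IQ)
open Pool.Agent.K4H55.BD (QE P0 mem_P0 nv_cases sq_loc disc_mem int_mem val_q spl_sq Cub SelTriv crv)
open WithZero

variable {K : Type} [Field K] [NumberField K] {σ : K →+* ℂ} {δ : K}
  {L : Type} [Field L] [NumberField L] [Algebra K L] {θ : L} {a b n : 𝓞 K}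

theorem bk_class (h : IQ K σ δ) (hx : 2 * (4 * a ^ 3 + 27 * b ^ 2) ≠ 0) (hcub : Cub K θ)
    (hθ : θ ^ 3 + algebraMap K L a * θ + algebraMap K L b = 0) (hS : SelTriv a b θ)
    {pos : Prop} {P : Finset ℕ} {D : ℤ} (hD : AB.DC (QE h a b n) pos (P ∪ P0 h hx) D) :
    (Finite (crv ((a : K) * (D : K) ^ 2) ((b : K) * (D : K) ^ 3)).toAffine.Point ∧
      Odd (Nat.card (crv ((a : K) * (D : K) ^ 2) ((b : K) * (D : K) ^ 3)).toAffine.Point)) ∧
    (∀ (k : ℕ) (s : Pool.Agent.TH841.NF.D.Sha (crv ((a : K) * (D : K) ^ 2)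
      ((b : K) * (D : K) ^ 3))), (2 ^ k : ℕ) • s = 0 → s = 0) ∧
    ∀ x : Pool.Agent.Y667.BKP.H1f 2 (crv ((a : K) * (D : K) ^ 2) ((b : K) * (D : K) ^ 3)),
      x = 0 := by
  classical
  have hA : ∀ q ∈ QE h a b n, q.Prime ∧ q ≠ 2 := fun q hq => ⟨hq.1.pr, hq.1.odd⟩
  have hD0 : D ≠ 0 := by
    rintro rfl
    exact not_squarefree_zero hD.sqf
  have hg := hD.gt
  have hdD := AB.disc_pf hD.sqf hD.one
  have hddD := AB.dd_pf hD.sqf
  have hΔ : 4 * a ^ 3 + 27 * b ^ 2 ≠ 0 := fun h1 => hx (by rw [h1, mul_zero])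
  have h1 := bk hΔ hcub hθ hS (D := (D : 𝓞 K)) (by exact_mod_cast hD0) ?_ ?_
  · have e : (((D : 𝓞 K)) : K) = (D : K) := by simp
    rw [e] at h1
    exact h1
  · intro v hv
    obtain ⟨p, hp, hpv, -⟩ := nv_cases h v
    have h2 := hD.loc p (Finset.mem_union_right _ ((mem_P0 h hx).2 ⟨hp, v, hpv, hv⟩))
    rw [← hddD] at h2
    have h3 := sq_loc (fun q hq => hA q (hg.adm q hq)) hp h2 v hpv
    rw [hdD] at h3
    simpa using h3
  · intro v hv hDv
    have h2 := hDv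
    rw [← hdD] at h2
    obtain ⟨q, hq, hqv⟩ := disc_mem.1 h2
    have hqA := hg.adm q hq
    refine ⟨?_, (hqA.2 v hqv).2.2⟩
    have hqD : (q : ℤ) ∣ D := Int.natCast_dvd.2 (Nat.dvd_of_mem_primeFactors hq)
    obtain ⟨m, rfl⟩ := hqD
    have hqm : ¬ (q : ℤ) ∣ m := by
      rintro ⟨k, rfl⟩
      have h3 := hD.sqf (q : ℤ) ⟨k, by ring⟩
      have h4 := Int.isUnit_iff.1 h3
      have h5 := hqA.1.pr.two_le
      omega
    have hmv : (m : 𝓞 K) ∉ v.asIdeal := fun h3 => hqm ((int_mem hqA.1.pr hqv).1 h3)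
    have e : (((q : ℤ) * m : ℤ) : 𝓞 K) = (q : 𝓞 K) * (m : 𝓞 K) := by push_cast; ring
    have h3 : v.valuation K (algebraMap (𝓞 K) K (m : 𝓞 K)) = 1 := by
      rw [v.valuation_of_algebraMap]
      exact HeightOneSpectrum.intValuation_eq_one_iff.2 hmv
    show v.valuation K (algebraMap (𝓞 K) K (((q : ℤ) * m : ℤ) : 𝓞 K)) = _
    rw [e, map_mul, map_mul, h3, mul_one]
    exact val_q hqv (spl_sq h hqA.1 hqv)

end Pool.Agent.K4H55.BK
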