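import Pool.Agent.K4H55.BK.Par

/-!
The cocycles with values in the points of order two which are everywhere locally trivial.
-/

set_option autoImplicit false
set_option linter.all false

open NumberField IsDedekindDomain WithZero WeierstrassCurve WeierstrassCurve.Affine
open scoped Classical TensorProduct

namespace Pool.Agent.K4H55.BK

open Pool.Agent.TH115.GD hiding crv
open Pool.Agent.K4H55.BD (crv low theta_int mem_low SelTriv LocIm Cub)
open Pool.Agent.Y682 (vv vv_coe exists_approx)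

variable {K : Type} [Field K] [NumberField K] {L : Type} [Field L] [NumberField L] [Algebra K L]

lemma htop_of {θ : L} (hc : Cub K θ) : IntermediateField.adjoin K {θ} = ⊤ := by
  rw [eq_top_iff]
  rintro β -
  obtain ⟨u, v, w, rfl⟩ := hc.span β
  have h1 : θ ∈ IntermediateField.adjoin K {θ} :=
    IntermediateField.subset_adjoin _ _ (Set.mem_singleton _)
  exact add_mem (add_mem (IntermediateField.algebraMap_mem _ _)
    (mul_mem (IntermediateField.algebraMap_mem _ _) h1))
    (mul_mem (IntermediateField.algebraMap_mem _ _) (pow_mem h1 2))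

theorem loc_tr {a b : 𝓞 K} {θ : L} {D : 𝓞 K} (hD : D ≠ 0) (v : HeightOneSpectrum (𝓞 K))
    (hv : IsSquare (algebraMap K (v.adicCompletion K) D)) {z : L}
    (h : ∃ x y : v.adicCompletion K, y ≠ 0 ∧
      y ^ 2 = cub (crv ((a : K) * (D : K) ^ 2) ((b : K) * (D : K) ^ 3)) x ∧
      IsSquare (((1 : v.adicCompletion K) ⊗ₜ[K] z) *
        (x ⊗ₜ[K] (1 : L) - 1 ⊗ₜ[K] (algebraMap K L D * θ)))) : LocIm a b θ v z := by
  obtain ⟨d, hd⟩ := hv
  obtain ⟨x, y, hy0, hxy, U, hU⟩ := h
  set ι := algebraMap K (v.adicCompletion K) with hι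
  have hD0 : ι D ≠ 0 := (map_ne_zero _).2 (fun h => hD (RingOfIntegers.ext h))
  have hd0 : d ≠ 0 := by
    rintro rfl
    rw [mul_zero] at hd
    exact hD0 hd
  refine Or.inr ⟨x / ι D, y / (ι D * d), div_ne_zero hy0 (mul_ne_zero hD0 hd0), ?_, ?_⟩
  · rw [div_pow, hxy, mul_pow, sq d, ← hd]
    simp only [cub, crv, map_mul, map_pow, map_zero, ← hι]
    field_simp
    ring
  · refine ⟨(d⁻¹ ⊗ₜ[K] (1 : L)) * U, ?_⟩
    have e1 : (1 : v.adicCompletion K) ⊗ₜ[K] (algebraMap K L D * θ) = ι D ⊗ₜ[K] θ := by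
      rw [← Algebra.smul_def, ← TensorProduct.smul_tmul, Algebra.smul_def, mul_one]
    have e2 : (x / ι D) ⊗ₜ[K] (1 : L) - 1 ⊗ₜ[K] θ =
        ((d⁻¹ ⊗ₜ[K] (1 : L)) * (d⁻¹ ⊗ₜ[K] (1 : L))) * (x ⊗ₜ[K] (1 : L) -
          1 ⊗ₜ[K] (algebraMap K L D * θ)) := by
      rw [e1, mul_sub, Algebra.TensorProduct.tmul_mul_tmul, Algebra.TensorProduct.tmul_mul_tmul,
        Algebra.TensorProduct.tmul_mul_tmul, mul_one, mul_one, one_mul]
      have e3 : d⁻¹ * d⁻¹ * x = x / ι D := by
        rw [hd]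
        field_simp
      have e4 : d⁻¹ * d⁻¹ * ι D = 1 := by
        rw [hd]
        field_simp
      rw [e3, e4]
    rw [e2]
    calc (1 : v.adicCompletion K) ⊗ₜ[K] z * (d⁻¹ ⊗ₜ[K] (1 : L) * d⁻¹ ⊗ₜ[K] (1 : L) *
          (x ⊗ₜ[K] (1 : L) - 1 ⊗ₜ[K] (algebraMap K L D * θ))) =
        (d⁻¹ ⊗ₜ[K] (1 : L) * d⁻¹ ⊗ₜ[K] (1 : L)) * ((1 : v.adicCompletion K) ⊗ₜ[K] z *
          (x ⊗ₜ[K] (1 : L) - 1 ⊗ₜ[K] (algebraMap K L D * θ))) := by ring
      _ = (d⁻¹ ⊗ₜ[K] (1 : L) * d⁻¹ ⊗ₜ[K] (1 : L)) * (U * U) := by rw [hU]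
      _ = _ := by ring

/-- **The Selmer group of the twist.** -/
theorem sel_cob {a b : 𝓞 K} (hΔ : 4 * a ^ 3 + 27 * b ^ 2 ≠ 0) {θ : L} (hc : Cub K θ)
    (hθ : θ ^ 3 + algebraMap K L a * θ + algebraMap K L b = 0) (hS : SelTriv a b θ)
    {D : 𝓞 K} (hD : D ≠ 0)
    (hD1 : ∀ v : HeightOneSpectrum (𝓞 K), 2 * (4 * a ^ 3 + 27 * b ^ 2) ∈ v.asIdeal →
      IsSquare (algebraMap K (v.adicCompletion K) D))
    (hD2 : ∀ v : HeightOneSpectrum (𝓞 K), 2 * (4 * a ^ 3 + 27 * b ^ 2) ∉ v.asIdeal →
      D ∈ v.asIdeal → v.valuation K (D : K) = exp (-1 : ℤ) ∧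
        ∀ X : 𝓞 K, X ^ 3 + a * X + b ∉ v.asIdeal)
    {W : WeierstrassCurve K} (hW : W = crv ((a : K) * (D : K) ^ 2) ((b : K) * (D : K) ^ 3))
    {f : (AlgebraicClosure K ≃ₐ[K] AlgebraicClosure K) → Pt W (AlgebraicClosure K)}
    (hf : IsCoc W f) (hf2 : ∀ σ, f σ + f σ = 0)
    (hloc : ∀ v : HeightOneSpectrum (𝓞 K),
      LocTriv W (v.adicCompletion K) (AlgebraicClosure (v.adicCompletion K)) f) :
    ∃ T : Pt W (AlgebraicClosure K),
      T + T = 0 ∧ ∀ σ : AlgebraicClosure K ≃ₐ[K] AlgebraicClosure K,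
        f σ = act W (rs K σ) T - T := by
  have hD0 : (D : K) ≠ 0 := fun h => hD (RingOfIntegers.ext h)
  have hDL : algebraMap K L D ≠ 0 := (map_ne_zero _).2 hD0
  let i : L →ₐ[K] AlgebraicClosure K := IsAlgClosed.lift
  letI : Algebra L (AlgebraicClosure K) := i.toRingHom.toAlgebra
  haveI : IsScalarTower K L (AlgebraicClosure K) :=
    IsScalarTower.of_algebraMap_eq fun x => (i.commutes x).symm
  have hcubW : ∀ {R : Type} [Field R] [Algebra K R] (x : R), cub W x =
      x ^ 3 + algebraMap K R ((a : K) * (D : K) ^ 2) * x +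
        algebraMap K R ((b : K) * (D : K) ^ 3) := by
    intro R _ _ x
    simp only [cub, hW, crv, map_zero]
    ring
  set θ' : L := algebraMap K L D * θ with hθ'
  have hc' : Cub K θ' := hc.smul hD0
  have hcubL : cub W θ' = 0 := by
    rw [hcubW]
    simp only [map_mul, map_pow, hθ']
    linear_combination (algebraMap K L D) ^ 3 * hθ
  have ha : cub W (algebraMap L (AlgebraicClosure K) θ') = 0 := by
    have := cub_map W (IsScalarTower.toAlgHom K L (AlgebraicClosure K)) θ'
    rw [hcubL, map_zero] at this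
    exact this
  have hΔW : W.Δ ≠ 0 := by
    have e : W.Δ = -16 * ((D : K) ^ 6 * ((4 * a ^ 3 + 27 * b ^ 2 : 𝓞 K) : K)) := by
      simp only [hW, crv, WeierstrassCurve.Δ, WeierstrassCurve.b₂, WeierstrassCurve.b₄,
        WeierstrassCurve.b₆, WeierstrassCurve.b₈, map_add, map_mul, map_pow, map_ofNat]
      ring
    rw [e]
    exact mul_ne_zero (by norm_num) (mul_ne_zero (pow_ne_zero 6 hD0)
      (fun h => hΔ (RingOfIntegers.ext h)))
  have hnr : ∀ x : K, cub W x ≠ 0 := by
    intro x hx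
    rw [hcubW] at hx
    have h1 : (θ' - algebraMap K L x) * (algebraMap K L (x ^ 2 + (a : K) * (D : K) ^ 2) +
        algebraMap K L x * θ' + algebraMap K L 1 * θ' ^ 2) = 0 := by
      have h2 := congrArg (algebraMap K L) hx
      rw [hcubW] at hcubL
      simp only [map_add, map_mul, map_pow, map_zero, map_one, Algebra.algebraMap_self,
        RingHom.id_apply] at h2 hcubL ⊢
      linear_combination hcubL - h2
    rcases mul_eq_zero.1 h1 with h2 | h2
    · have h3 := hc'.ind (-x) 1 0 (by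
        simp only [map_neg, map_one, map_zero]
        linear_combination h2)
      exact one_ne_zero h3.2.1
    · exact one_ne_zero (hc'.ind _ _ _ h2).2.2
  have ha1 : W.a₁ = 0 := by rw [hW]; rfl
  have ha3 : W.a₃ = 0 := by rw [hW]; rfl
  obtain ⟨β, γ, hC⟩ := exists_isC (K := K) (Ω := AlgebraicClosure K) (W := W) ha1 ha3 hΔW
    two_ne_zero ha
  have htop := htop_of hc'
  have hmul : ∀ σ τ, f (σ * τ) = f σ + act W (ak σ) (f τ) := fun σ τ => hf.mul σ τ
  obtain ⟨t, z, ht, hz, hk⟩ := kummerN hC rfl htop hf.lc hmul hf2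
  have hz0 : z ≠ 0 := by
    rintro rfl
    rw [map_zero] at hz
    exact pow_ne_zero 2 ht hz
  obtain ⟨T, ρ, hρ, claim, hsq⟩ := exists_T hC hnr rfl htop hmul hf2 hz hk
  have hzs : IsSquare z := by
    refine hS z hz0 (norm_sq hC rfl htop hf2 hρ claim hsq) (fun w hw => ?_) (fun v hv => ?_)
    · -- the places outside of the discriminant
      haveI : IsGalois ((low (K := K) w).adicCompletion K)
        (AlgebraicClosure ((low (K := K) w).adicCompletion K)) :=
          Pool.Agent.Y809.BS.galL K (low (K := K) w)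
      haveI : IsGalois (w.adicCompletion L) (AlgebraicClosure (w.adicCompletion L)) :=
        Pool.Agent.Y809.BS.galL L w
      have h1 : ∀ x : K, (low (K := K) w).valuation K x ≤ 1 →
          w.valuation L (algebraMap K L x) ≤ 1 := by
        intro x hx
        rw [← HeightOneSpectrum.valuation_liesOver L (low (K := K) w) w x]
        exact pow_le_one' hx _
      have h2 : ∀ x : K, (low (K := K) w).valuation K x < 1 →
          w.valuation L (algebraMap K L x) < 1 := by
        intro x hx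
        rw [← HeightOneSpectrum.valuation_liesOver L (low (K := K) w) w x]
        exact pow_lt_one₀ zero_le hx
          (Ideal.IsDedekindDomain.ramificationIdx'_ne_zero_of_liesOver w.asIdeal
            (low (K := K) w).ne_bot)
      obtain ⟨j, hj, hle, hlt⟩ := exists_compl_map (low (K := K) w) w (algebraMap K L) h1 h2
      have hj' : ∀ x : K, j (algebraMap K _ x) = algebraMap K (w.adicCompletion L) x :=
        fun x => hj x
      refine par hθ hD hD2 w (low (K := K) w) hw j hj' hle hlt (z := z) ?_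
      have hlc : LocC W j θ' z := locC (K := K) (F := K) (Ω := AlgebraicClosure K)
        (L := (low (K := K) w).adicCompletion K)
        (Ω' := AlgebraicClosure ((low (K := K) w).adicCompletion K)) (E := w.adicCompletion L)
        (M := L) W (AlgebraicClosure (w.adicCompletion L)) hC (θ := θ') rfl j hj' hf hf2
        (hloc (low (K := K) w)) (t := t) (z := z) ht hz hk
      rw [hW] at hlc
      exact hlc
    · haveI : IsGalois (v.adicCompletion K) (AlgebraicClosure (v.adicCompletion K)) :=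
        Pool.Agent.Y809.BS.galL K v
      refine loc_tr hD v (hD1 v hv) ?_
      obtain ⟨e1, e2, hC2⟩ := exists_isC (K := K) (Ω := AlgebraicClosure (v.adicCompletion K))
        (W := W) ha1 ha3 hΔW two_ne_zero
        (a := (IsAlgClosed.lift : L →ₐ[K] AlgebraicClosure (v.adicCompletion K)) θ') (by
          rw [cub_map, hcubL, map_zero])
      have hZ : ∃ Z : Pt W (v.adicCompletion K), (Z + Z) + (Z + Z) ≠ 0 := by
        subst hW
        exact exists_not_four v hC2
      have hten := tens (K := K) (Ω := AlgebraicClosure K) (Kv := v.adicCompletion K)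
        (Ω' := AlgebraicClosure (v.adicCompletion K)) W hC hf2 (hloc v)
        hZ hc' rfl hρ claim hsq
      rw [hW] at hten
      exact hten
  obtain ⟨s, hs⟩ := hzs
  have h1 : t = algebraMap L _ s ∨ t = -algebraMap L _ s := by
    rw [← sq_eq_sq_iff_eq_or_eq_neg, hz, hs, map_mul, sq]
  have hfixA : ∀ τ : AlgebraicClosure K ≃ₐ[K] AlgebraicClosure K,
      τ (algebraMap L _ θ') = algebraMap L _ θ' →
      ∀ x : L, τ (algebraMap L _ x) = algebraMap L _ x := by
    intro τ hτ x
    obtain ⟨τ', hτ'⟩ := lift_fix htop τ hτ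
    rw [← hτ', τ'.commutes]
  have hs1 : ∀ τ : AlgebraicClosure K ≃ₐ[K] AlgebraicClosure K,
      τ (algebraMap L _ θ') = algebraMap L _ θ' →
      sC (algebraMap L _ θ') (f τ) = 1 := by
    intro τ hτ
    have h3 := hk τ hτ
    have h4 : τ t = t := by
      rcases h1 with h1 | h1
      · rw [h1, hfixA τ hτ]
      · rw [h1, map_neg, hfixA τ hτ]
    rw [h4] at h3
    have h5 : (sC (algebraMap L _ θ') (f τ) - 1) * t = 0 := by
      linear_combination -h3
    rcases mul_eq_zero.1 h5 with h | h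
    · linear_combination h
    · exact absurd h ht
  obtain ⟨R, hR, h6⟩ := cob1 (K := K) (F := K) hC
    (fun e he => trans_roots (K := K) (F := K) hC hnr e he) hf.mul hf2 hs1
  exact ⟨R, hR, h6⟩

end Pool.Agent.K4H55.BK
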