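import Pool.Agent.K4H55.BK.Orb

/-!
Forms with an odd central value: all the twists are nonzero.
-/

set_option autoImplicit false

namespace Pool.Agent.K4H55.BK

open NumberField IsDedekindDomain Filter Topology
open Pool.Agent.K4H55.BI

section ord

variable {O : Type} [CommRing O] {D : BI.Ord O} {n : O} {c : O → ℂ} {C : ℝ} {w : ℂ}
  {M : Submodule ℤ ℂ}

lemma bt_empty [IsDomain O] (f : ℂ → ℂ) (hf : ∀ (z : ℂ) (y : O), f (z + D.ι y) = f z) :
    bt D f ∅ = f 0 := by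
  classical
  unfold bt
  have hm : md (∅ : Finset O) = 1 := by unfold md; simp
  rw [hm]
  have h1 := rs_CRS D (one_ne_zero (α := O))
  obtain ⟨x, hx, -⟩ := h1.ex 0
  have h2 : rs D 1 = {x} := by
    ext y
    rw [Finset.mem_singleton]
    constructor
    · intro hy
      exact h1.un y hy x hx (one_dvd _)
    · rintro rfl
      exact hx
  rw [h2, Finset.sum_singleton, map_one, div_one]
  have h3 := hf 0 x
  rw [zero_add] at h3
  rw [h3]
  unfold chi
  simp

lemma fv_unit [IsDomain O] (hcu : ∀ u : O, IsUnit u → ∀ x, c (u * x) = c x) {u : O}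
    (hu : IsUnit u) (z : ℂ) : fv D c (D.ι u * z) = fv D c z := by
  have h1 : Phi D c (D.ι u * z) = Phi D c z := by
    funext t
    unfold Phi th
    congr 1
    obtain ⟨v, hv⟩ := hu.exists_right_inv
    have hvu : IsUnit v := IsUnit.of_mul_eq_one u (by rw [mul_comm]; exact hv)
    let e : O ≃ O := ⟨fun x => u * x, fun x => v * x, fun x => by
      show v * (u * x) = x
      rw [← mul_assoc, mul_comm v u, hv, one_mul], fun x => by
      show u * (v * x) = x
      rw [← mul_assoc, hv, one_mul]⟩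
    rw [← e.tsum_eq (fun x => c x * ((hb (D.nm x * (kap D * t ^ 2)) : ℝ) : ℂ) *
      ee D.δ (D.ι x * z))]
    refine tsum_congr fun x => ?_
    show _ = c (u * x) * ((hb (D.nm (u * x) * (kap D * t ^ 2)) : ℝ) : ℂ) *
      ee D.δ (D.ι (u * x) * z)
    rw [hcu u hu, D.nm_mul, nm_unit D hu, one_mul, map_mul]
    congr 2
    ring
  unfold fv
  rw [h1]

theorem bt_odd [IsDomain O] (h : MG D n c C w M)
    (hcu : ∀ u : O, IsUnit u → ∀ x, c (u * x) = c x) {H : Finset O} (hH : H4 H)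
    {T : Finset O} (hT : Fam T)
    (hn : ∀ p ∈ T, ¬ p ∣ n) (hc : ∀ q ∈ T, ∃ m : ℤ, c q = m ∧ m % 2 = 1)
    (hu : ∀ u : O, IsUnit u → chi T u = 1) {Λ : AddSubgroup ℂ}
    (hΛ : ∀ x m : O, m ≠ 0 → IsCoprime m n → fv D c (D.ι x / D.ι m) ∈ Λ)
    (hodd : ∀ y ∈ Λ, fv D c 0 ≠ 2 * H.card * y) : bt D (fv D c) T ≠ 0 := by
  classical
  set f := fv D c with hf
  have hf0 : f 0 ∈ Λ := by
    have := hΛ 0 1 one_ne_zero isCoprime_one_left
    rwa [map_zero, zero_div] at this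
  rcases T.eq_empty_or_nonempty with hT0 | hne
  · rw [hT0, bt_empty f (fun z y => fv_periodic D c z y)]
    have := hodd 0 Λ.zero_mem
    rwa [mul_zero] at this
  have h1 : st D f T ∅ = (∏ q ∈ T, (c q - 2)) * f 0 := by
    have h2 := st_prod h (T := ∅) T (Finset.disjoint_empty_right T)
      (by rw [Finset.union_empty]; exact hT) (by rw [Finset.union_empty]; exact hn)
    rw [Finset.union_empty] at h2
    rw [h2, bt_empty f (fun z y => fv_periodic D c z y)]
    congr 1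
    refine Finset.prod_congr rfl fun q _ => ?_
    unfold chi
    simp
  have hcopm : IsCoprime (md T) n := md_coprime D hT hn
  set g : O → ℂ := fun x => if chi T x = -1 then -f (D.ι x / D.ι (md T)) else 0 with hg
  have hιm : D.ι (md T) ≠ 0 := fun h0 => hT.md_ne (D.inj (by rw [h0, map_zero]))
  have hfp : Prd (md T) fun x => f (D.ι x / D.ι (md T)) := by
    rintro x y ⟨k, hk⟩
    have e : D.ι x / D.ι (md T) = D.ι y / D.ι (md T) + D.ι k := by
      have h3 : D.ι x = D.ι y + D.ι (md T) * D.ι k := by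
        rw [← map_mul, ← map_add]
        congr 1
        linear_combination hk
      rw [h3]
      field_simp
    show f (D.ι x / D.ι (md T)) = f (D.ι y / D.ι (md T))
    rw [e]
    exact fv_periodic D c _ k
  have hχp : Prd (md T) (chi T) := chi_prd fun p hp => dvd_md hp
  have hgp : Prd (md T) g := by
    intro x y hxy
    have h3 := hfp x y hxy
    have h4 := hχp x y hxy
    simp only at h3
    simp only [hg, h4, h3]
  have hun : ∀ u ∈ H, IsUnit u := fun u hu =>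
    IsUnit.of_mul_eq_one (u ^ 3) (by rw [← pow_succ']; exact (hH.mem u).1 hu)
  obtain ⟨y, hy, h2⟩ := orb hH hT hne (rs_CRS D hT.md_ne) hgp (fun u huH x => by
    have h3 := hun u huH
    simp only [hg]
    have h6 : f (D.ι u * (D.ι x / D.ι (md T))) = f (D.ι x / D.ι (md T)) := fv_unit hcu h3 _
    rw [chi_mul D hT, hu u h3, one_mul, map_mul, mul_div_assoc, h6])
    (fun x p hp hd => by
      simp only [hg]
      rw [chi_zero hp hd, if_neg]
      norm_num) (Λ := Λ) (fun x => by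
      simp only [hg]
      split_ifs
      · exact Λ.neg_mem (hΛ x _ hT.md_ne hcopm)
      · exact Λ.zero_mem)
  have h3 : bt D f T = st D f T ∅ + 2 * (H.card * y) := by
    rw [← h2, ← st_self, Finset.mul_sum]
    unfold st
    rw [← Finset.sum_add_distrib]
    refine Finset.sum_congr rfl fun x _ => ?_
    have h5 : chi (∅ : Finset O) x = 1 := by unfold chi; simp
    by_cases hx : ∀ p ∈ T, ¬ p ∣ x
    · rcases mul_self_eq_one_iff.1 (chi_sq hx) with h6 | h6
      · simp only [hg]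
        rw [if_neg (by rw [h6]; norm_num), h5, h6]
        ring
      · simp only [hg]
        rw [if_pos h6, h5, h6, cop_one_of hx]
        ring
    · push Not at hx
      obtain ⟨p, hp, hd⟩ := hx
      simp only [hg]
      rw [cop_zero_of hp hd, chi_zero hp hd, if_neg (by norm_num)]
      ring
  have h4 : ∃ k : ℤ, ∏ q ∈ T, (c q - 2) = ((1 + 2 * k : ℤ) : ℂ) := by
    have key : ∀ S : Finset O, (∀ q ∈ S, ∃ m : ℤ, c q = m ∧ m % 2 = 1) →
        ∃ k : ℤ, ∏ q ∈ S, (c q - 2) = ((1 + 2 * k : ℤ) : ℂ) := by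
      intro S
      induction S using Finset.induction_on with
      | empty => intro _; exact ⟨0, by simp⟩
      | insert q S hq ih =>
        intro hS
        obtain ⟨k, hk⟩ := ih fun q' hq' => hS q' (Finset.mem_insert_of_mem hq')
        obtain ⟨m, hm, hm2⟩ := hS q (Finset.mem_insert_self q S)
        obtain ⟨l, rfl⟩ : ∃ l : ℤ, m = 2 * l + 1 := ⟨m / 2, by omega⟩
        refine ⟨k + (l - 1) * (1 + 2 * k), ?_⟩
        rw [Finset.prod_insert hq, hk, hm]
        push_cast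
        ring
    exact key T hc
  obtain ⟨k, hk⟩ := h4
  obtain ⟨e, he⟩ := hH.card_dvd
  intro h5
  rw [h1, hk, h5] at h3
  obtain ⟨j, hj⟩ : ∃ j : ℤ, (1 + 2 * k) * (1 + 2 * k) = 1 + 8 * j := by
    obtain ⟨i, hi⟩ : ∃ i : ℤ, k * (k + 1) = 2 * i := by
      rcases Int.even_or_odd k with ⟨r, hr⟩ | ⟨r, hr⟩
      · exact ⟨r * (k + 1), by rw [hr]; ring⟩
      · exact ⟨k * (r + 1), by rw [hr]; ring⟩
    exact ⟨i, by linear_combination 4 * hi⟩
  refine hodd (-((1 + 2 * k) • y + (e * j) • f 0)) (Λ.neg_mem (Λ.add_mem (Λ.zsmul_mem hy _)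
    (Λ.zsmul_mem hf0 _))) ?_
  rw [zsmul_eq_mul, zsmul_eq_mul]
  have hjC : ((1 + 2 * k : ℤ) : ℂ) * ((1 + 2 * k : ℤ) : ℂ) = 1 + 8 * (j : ℂ) := by
    exact_mod_cast hj
  have heC : (4 : ℂ) = (H.card : ℂ) * (e : ℂ) := by exact_mod_cast he
  push_cast at h3 hjC ⊢
  linear_combination (-(1 + 2 * (k : ℂ))) * h3 - f 0 * hjC - 2 * (j : ℂ) * f 0 * heC

end ord

variable {K : Type} [Field K] [NumberField K]

/-- the values of the primitive at the cusps `x/m`, `m` prime to the level -/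
def Vals (σ : K →+* ℂ) (δ : K) (n : 𝓞 K) (c : Ideal (𝓞 K) → ℂ) : Set ℂ :=
  {z | ∃ x m : 𝓞 K, m ≠ 0 ∧ IsCoprime m n ∧
    Tendsto (fun t => Fser σ δ c (σ x / σ m) t) (𝓝[>] 0) (𝓝 z)}

/-- the central value is odd -/
def OddV (σ : K →+* ℂ) (δ : K) (n : 𝓞 K) (c : Ideal (𝓞 K) → ℂ) : Prop :=
  ∃ z, Tendsto (fun t => Fser σ δ c 0 t) (𝓝[>] 0) (𝓝 z) ∧
    ∀ y ∈ AddSubgroup.closure (Vals σ δ n c), z ≠ 2 * (Nat.card {u : 𝓞 K // u ^ 4 = 1} : ℂ) * y

variable {σ : K →+* ℂ} {δ : K} {n : 𝓞 K} {c : Ideal (𝓞 K) → ℂ}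

theorem nvt_odd (h : IQ K σ δ) [hP : IsPrincipalIdealRing (𝓞 K)] (hf : BF σ δ n c)
    (hodd : OddV σ δ n c)
    {T : Finset (HeightOneSpectrum (𝓞 K))} (hT : ∀ v ∈ T, (2 : 𝓞 K) ∉ v.asIdeal ∧
      n ∉ v.asIdeal ∧ ∃ m : ℤ, c v.asIdeal = m ∧ m % 2 = 1)
    (hu : ∀ u, IsUnit u → chiT T u = 1) : NVT n c T := by
  classical
  obtain ⟨C, w, κ, κW, hN⟩ := hf.newf h
  have hMG := hN.mg
  have hfam : Fam (T.image gen) := fam_of (A := {v | (2 : 𝓞 K) ∉ v.asIdeal}) (fun v hv => hv)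
    (fun v hv => (hT v hv).1)
  rw [nvt_iff h hf hfam hu fun v hv => (hT v hv).2.1]
  obtain ⟨z, hz, hzy⟩ := hodd
  have hlim : ∀ x m : 𝓞 K, m ≠ 0 → IsCoprime m n →
      fv (ordK h) (fun x => c (Ideal.span {x})) ((ordK h).ι x / (ordK h).ι m) ∈
        Vals σ δ n c := by
    intro x m hm hmn
    refine ⟨x, m, hm, hmn, ?_⟩
    rw [Fser_eq h]
    exact hMG.tendsto hm hmn
  have h0 : fv (ordK h) (fun x => c (Ideal.span {x})) 0 = z := by
    rw [Fser_eq h] at hz
    exact fv_eq hz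
  obtain ⟨H, hH⟩ := exists_H4 (O := 𝓞 K)
  refine bt_odd hMG (fun u hu x => ?_) hH hfam ?_ ?_ (fun u hu1 => ?_)
    (Λ := AddSubgroup.closure (Vals σ δ n c))
    (fun x m hm hmn => AddSubgroup.subset_closure (hlim x m hm hmn)) (fun y hy => ?_)
  · have h1 : Ideal.span {u * x} = Ideal.span {x} := Ideal.span_singleton_mul_left_unit hu x
    simp only [h1]
  · intro p hp hd
    obtain ⟨v, hv, rfl⟩ := Finset.mem_image.1 hp
    exact (hT v hv).2.1 (gen_dvd.1 hd)
  · intro p hp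
    obtain ⟨v, hv, rfl⟩ := Finset.mem_image.1 hp
    rw [gen_span]
    exact (hT v hv).2.2
  · rw [chi_gen]
    exact hu u hu1
  · rw [h0, ← hH.card_eq]
    exact hzy y hy

section curve

open Pool.Agent.K4H55.BD
open Pool.Agent.Y18.BSD (dd disc dd_ne_zero)

/-- all the twists of the class -/
theorem nve_odd (h : IQ K σ δ) [hP : IsPrincipalIdealRing (𝓞 K)] {a b : 𝓞 K}
    (hx : 2 * (4 * a ^ 3 + 27 * b ^ 2) ≠ 0) (hf : BF σ δ n c)
    (hc : ∀ v : HeightOneSpectrum (𝓞 K), 2 * (4 * a ^ 3 + 27 * b ^ 2) ∉ v.asIdeal →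
      n ∉ v.asIdeal ∧ c v.asIdeal = (Ideal.absNorm v.asIdeal : ℂ) - pv a b v)
    (hodd : OddV σ δ n c) {pos : Prop} {P : Finset ℕ} {D : ℤ}
    (hD : AB.DC (QE h a b n) pos (P ∪ P0 h hx) D) : NVE a b n c D := by
  classical
  have hg := hD.gt
  have hdD := AB.disc_pf hD.sqf hD.one
  set T := D.natAbs.primeFactors with hT
  have hadm : ∀ q ∈ T, q ∈ QE h a b n := fun q hq => hg.adm q hq
  have hspl : ∀ q ∈ T, Spl h q := fun q hq => (hadm q hq).1
  have hTp : ∀ q ∈ T, q.Prime := fun q hq => (hspl q hq).pr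
  obtain ⟨G, h1, h2, h3⟩ := nvt_odd h hf hodd (T := pl K T) (by
    intro v hv
    obtain ⟨q, hq, hqv⟩ := (mem_pl hTp).1 hv
    obtain ⟨h4, h5, h6⟩ := (hadm q hq).2 v hqv
    have h7 := two_notMem (hspl q hq).pr (hspl q hq).odd hqv
    refine ⟨h7, h5, (q : ℤ) - pv a b v, ?_, ?_⟩
    · rw [(hc v h4).2, (hspl q hq).deg v hqv]
      push_cast
      ring
    · obtain ⟨k, hk⟩ := pv_even h7 h6
      have h8 := (hspl q hq).pr.odd_of_ne_two (hspl q hq).odd
      rw [Nat.odd_iff] at h8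
      omega) (fun u hu => chiT_unit h hspl hu)
  refine ⟨G, h1, fun s hs => ?_, h3⟩
  have h4 := h2 s hs
  have h5 : ef a b n c D s = efac n c (pl K T) s := by
    funext v
    rw [← hdD]
    refine ef_eq h hspl (fun p hp hpv => ?_) hc s v
    have h6 := hD.loc p (Finset.mem_union_right _ ((mem_P0 h hx).2 ⟨hp, hpv⟩))
    rw [← AB.dd_pf hD.sqf] at h6
    exact h6
  rw [h5]
  exact h4

end curve

end Pool.Agent.K4H55.BK
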