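import Pool.Agent.K4H55.BD.Fin

/-!
Sums over the orbits of the roots of unity of order dividing four.
-/

set_option autoImplicit false

namespace Pool.Agent.K4H55.BK

open Filter Topology
open Pool.Agent.K4H55.BI

variable {O : Type} [CommRing O]

/-- the elements with `u⁴ = 1` -/
structure H4 (H : Finset O) : Prop where
  mem : ∀ u, u ∈ H ↔ u ^ 4 = 1

lemma exists_H4 [IsDomain O] : ∃ H : Finset O, H4 H := by
  classical
  refine ⟨(Polynomial.nthRoots 4 (1 : O)).toFinset, ⟨fun u => ?_⟩⟩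
  rw [Multiset.mem_toFinset, Polynomial.mem_nthRoots (by norm_num)]

lemma H4.card_eq {H : Finset O} (hH : H4 H) : Nat.card {u : O // u ^ 4 = 1} = H.card := by
  classical
  have h1 : {u : O | u ^ 4 = 1} = (H : Set O) := by
    ext u
    rw [Set.mem_ofPred_eq, Finset.mem_coe, hH.mem]
  have h2 : Nat.card {u : O // u ^ 4 = 1} = ({u : O | u ^ 4 = 1} : Set O).ncard := rfl
  rw [h2, h1, Set.ncard_coe_finset]

lemma H4.card_dvd [IsDomain O] {H : Finset O} (hH : H4 H) : H.card ∣ 4 := by
  classical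
  have h1 : Nat.card (rootsOfUnity 4 O) = H.card := by
    rw [← hH.card_eq]
    refine Nat.card_congr ⟨fun u => ⟨((u : Oˣ) : O), ?_⟩, fun u => ⟨⟨u.1, u.1 ^ 3, ?_, ?_⟩, ?_⟩,
      fun u => ?_, fun u => ?_⟩
    · have := u.2
      rw [mem_rootsOfUnity] at this
      rw [← Units.val_pow_eq_pow_val, this, Units.val_one]
    · rw [← pow_succ']; exact u.2
    · rw [← pow_succ]; exact u.2
    · rw [mem_rootsOfUnity]
      ext
      rw [Units.val_pow_eq_pow_val]
      exact u.2
    · ext; rfl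
    · ext; rfl
  have h2 : IsCyclic (rootsOfUnity 4 O) := inferInstance
  obtain ⟨g, hg⟩ := h2.exists_generator
  have h3 : orderOf g = Nat.card (rootsOfUnity 4 O) := orderOf_eq_card_of_forall_mem_zpowers hg
  rw [← h1, ← h3]
  refine orderOf_dvd_of_pow_eq_one ?_
  have := g.2
  rw [mem_rootsOfUnity] at this
  ext
  simpa using congrArg Units.val this

lemma H4.sep [IsDomain O] {H : Finset O} (hH : H4 H) {u v p : O} (hu : u ∈ H) (hv : v ∈ H)
    (hp : Prime p) (h2 : ¬ p ∣ 2) (hd : p ∣ u - v) : u = v := by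
  have hu4 := (hH.mem u).1 hu
  have hv4 := (hH.mem v).1 hv
  by_contra hne
  have h1 : (u - v) * ((u + v) * (u ^ 2 + v ^ 2)) = 0 := by
    linear_combination hu4 - hv4
  have h3 : u - v ≠ 0 := sub_ne_zero.2 hne
  have h4 : ¬ p ∣ v := fun h => hp.not_isUnit (isUnit_of_dvd_one (h.trans ⟨v ^ 3, by
    rw [← pow_succ']; exact hv4.symm⟩))
  rcases mul_eq_zero.1 ((mul_eq_zero.1 h1).resolve_left h3) with h5 | h5
  · have h6 : p ∣ 2 * v := by
      have e : 2 * v = -(u - v) := by linear_combination h5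
      rw [e]
      exact (dvd_neg.2 hd)
    rcases hp.dvd_or_dvd h6 with h | h
    · exact h2 h
    · exact h4 h
  · have h6 : p ∣ 2 * v ^ 2 := by
      have e : 2 * v ^ 2 = -((u - v) * (u + v)) := by linear_combination h5
      rw [e]
      exact dvd_neg.2 (hd.mul_right _)
    rcases hp.dvd_or_dvd h6 with h | h
    · exact h2 h
    · exact h4 (hp.dvd_of_dvd_pow h)

/-- sums over orbits -/
theorem orb [IsDomain O] {H : Finset O} (hH : H4 H) {T : Finset O} (hT : Fam T)
    (hne : T.Nonempty) {S : Finset O} (hS : CRS (md T) S) {g : O → ℂ} (hg : Prd (md T) g)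
    (hgu : ∀ u ∈ H, ∀ x, g (u * x) = g x) (hg0 : ∀ x, ∀ p ∈ T, p ∣ x → g x = 0)
    {Λ : AddSubgroup ℂ} (hΛ : ∀ x, g x ∈ Λ) : ∃ y ∈ Λ, ∑ x ∈ S, g x = H.card * y := by
  classical
  set m := md T with hm
  choose i hi1 hi2 using hS.ex
  have hone : (1 : O) ∈ H := (hH.mem 1).2 (one_pow 4)
  have hmul : ∀ u ∈ H, ∀ v ∈ H, u * v ∈ H := fun u hu v hv =>
    (hH.mem _).2 (by rw [mul_pow, (hH.mem u).1 hu, (hH.mem v).1 hv, one_mul])
  have hinv : ∀ u ∈ H, ∃ v ∈ H, v * u = 1 := fun u hu =>
    ⟨u ^ 3, (hH.mem _).2 (by rw [← pow_mul, mul_comm, pow_mul, (hH.mem u).1 hu, one_pow]), by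
      rw [← pow_succ]; exact (hH.mem u).1 hu⟩
  have huniq : ∀ y y', m ∣ y - y' → i y = i y' := by
    intro y y' h
    refine hS.un _ (hi1 y) _ (hi1 y') ?_
    have e : i y - i y' = (y - y') - (y - i y) + (y' - i y') := by ring
    rw [e]
    exact dvd_add (dvd_sub h (hi2 y)) (hi2 y')
  have hfix : ∀ x ∈ S, i x = x := fun x hx => (hS.un _ hx _ (hi1 x) (hi2 x)).symm
  obtain ⟨q, hq⟩ := hne
  have hinj : ∀ x, (∀ p ∈ T, ¬ p ∣ x) → ∀ u ∈ H, ∀ v ∈ H, i (u * x) = i (v * x) → u = v := by
    intro x hx u hu v hv h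
    have h1 : m ∣ (u - v) * x := by
      have e : (u - v) * x = (u * x - i (u * x)) - (v * x - i (v * x)) := by
        have h' : i (u * x) - i (v * x) = 0 := sub_eq_zero.2 h
        linear_combination h'
      rw [e]
      exact dvd_sub (hi2 _) (hi2 _)
    have h2 : q ∣ (u - v) * x := (dvd_md hq).trans h1
    exact hH.sep hu hv (hT.pr q hq) (hT.odd q hq)
      (((hT.pr q hq).dvd_or_dvd h2).resolve_right (hx q hq))
  have key : ∀ A : Finset O, A ⊆ S → (∀ x ∈ A, ∀ p ∈ T, ¬ p ∣ x) →
      (∀ x ∈ A, ∀ u ∈ H, i (u * x) ∈ A) → ∃ y ∈ Λ, ∑ x ∈ A, g x = H.card * y := by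
    intro A
    induction A using Finset.strongInduction with
    | H A ih =>
      intro hA1 hA2 hA3
      rcases A.eq_empty_or_nonempty with h0 | ⟨x, hx⟩
      · exact ⟨0, Λ.zero_mem, by rw [h0]; simp⟩
      · set B := H.image (fun u => i (u * x)) with hB
        have hBA : B ⊆ A := by
          intro z hz
          obtain ⟨u, hu, rfl⟩ := Finset.mem_image.1 hz
          exact hA3 x hx u hu
        have hxB : x ∈ B := Finset.mem_image.2 ⟨1, hone, by rw [one_mul]; exact hfix x (hA1 hx)⟩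
        have hsub : A \ B ⊂ A := by
          refine Finset.sdiff_ssubset hBA ⟨x, hxB⟩
        obtain ⟨y, hy, hs⟩ := ih (A \ B) hsub (Finset.sdiff_subset.trans hA1)
          (fun z hz => hA2 z (Finset.sdiff_subset hz)) (by
          intro z hz u hu
          rw [Finset.mem_sdiff] at hz ⊢
          refine ⟨hA3 z hz.1 u hu, fun h => hz.2 ?_⟩
          obtain ⟨v, hv, h1⟩ := Finset.mem_image.1 h
          obtain ⟨u', hu', h2⟩ := hinv u hu
          refine Finset.mem_image.2 ⟨u' * v, hmul u' hu' v hv, ?_⟩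
          have h3 : m ∣ z - u' * v * x := by
            have e : z - u' * v * x = u' * ((u * z - i (u * z)) - (v * x - i (v * x)) -
              (i (v * x) - i (u * z))) := by linear_combination -z * h2
            have h1' : i (v * x) = i (u * z) := h1
            rw [e, h1', sub_self, sub_zero]
            refine Dvd.dvd.mul_left (dvd_sub (hi2 _) ?_) _
            rw [← h1']
            exact hi2 _
          show i (u' * v * x) = z
          rw [← huniq _ _ h3]
          exact hfix z (hA1 hz.1))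
        refine ⟨y + g x, Λ.add_mem hy (hΛ x), ?_⟩
        have h1 : ∑ z ∈ B, g z = H.card * g x := by
          rw [hB, Finset.sum_image (fun u hu v hv h => hinj x (hA2 x hx) u hu v hv h)]
          rw [Finset.sum_congr rfl (g := fun _ => g x), Finset.sum_const, nsmul_eq_mul]
          intro u hu
          rw [← hgu u hu x]
          exact (hg _ _ (hi2 (u * x))).symm
        rw [← Finset.sum_sdiff hBA, hs, h1]
        ring
  set A := S.filter (fun x => ∀ p ∈ T, ¬ p ∣ x) with hA
  obtain ⟨y, hy, hs⟩ := key A (Finset.filter_subset _ _)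
    (fun x hx => (Finset.mem_filter.1 hx).2) (by
    intro x hx u hu
    refine Finset.mem_filter.2 ⟨hi1 _, fun p hp hd => ?_⟩
    have h1 : p ∣ u * x := by
      have h2 := (dvd_md hp).trans (hi2 (u * x))
      have e : u * x = (u * x - i (u * x)) + i (u * x) := by ring
      rw [e]
      exact dvd_add h2 hd
    rcases (hT.pr p hp).dvd_or_dvd h1 with h | h
    · obtain ⟨v, hv, h3⟩ := hinv u hu
      exact (hT.pr p hp).not_isUnit (isUnit_of_dvd_one (h.trans ⟨v, by rw [mul_comm]; exact h3.symm⟩))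
    · exact (Finset.mem_filter.1 hx).2 p hp h)
  refine ⟨y, hy, ?_⟩
  rw [← hs]
  symm
  refine Finset.sum_subset (Finset.filter_subset _ _) fun x hx hxA => ?_
  have h1 : ¬ ∀ p ∈ T, ¬ p ∣ x := fun h => hxA (Finset.mem_filter.2 ⟨hx, h⟩)
  push Not at h1
  obtain ⟨p, hp, hd⟩ := h1
  exact hg0 x p hp hd

end Pool.Agent.K4H55.BK
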