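import Pool.Agent.K4H55.BK.Pts

/-!
Parity of the orders of the Kummer generator.
-/

set_option autoImplicit false
set_option linter.all false

open NumberField IsDedekindDomain WithZero WeierstrassCurve WeierstrassCurve.Affine
open scoped Classical

namespace Pool.Agent.K4H55.BK

open Pool.Agent.TH115.GD hiding crv
open Pool.Agent.K4H55.BD (crv low theta_int mem_low)
open Pool.Agent.Y682 (vv vv_coe exists_approx)

variable {K : Type} [Field K] [NumberField K]

/-- no root modulo `v`: the cubic polynomial is a unit at the integral elements of the completion -/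
lemma root_kv {a b : 𝓞 K} {v : HeightOneSpectrum (𝓞 K)}
    (h : ∀ X : 𝓞 K, X ^ 3 + a * X + b ∉ v.asIdeal) {t : v.adicCompletion K} (ht : vv v t ≤ 1) :
    vv v (t ^ 3 + algebraMap K (v.adicCompletion K) a * t +
      algebraMap K (v.adicCompletion K) b) = 1 := by
  obtain ⟨k, hk⟩ := exists_approx v t 1 one_ne_zero
  set ι := algebraMap K (v.adicCompletion K) with hι
  have hk1 : v.valuation K k ≤ 1 := by
    rw [← vv_coe]
    have e : ι k = (ι k - t) + t := by ring
    rw [← hι, e]
    exact (vv v).map_add_le hk.le ht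
  have h1 := Pool.Agent.K4H55.BD.root_low h hk1
  have hai : vv v (ι a) ≤ 1 := by
    rw [hι, vv_coe]
    exact v.valuation_le_one a
  have hk1' : vv v (ι k) ≤ 1 := by rw [hι, vv_coe]; exact hk1
  have h1' : vv v (ι (k ^ 3 + a * k + b)) = 1 := by rw [hι, vv_coe]; exact h1
  have e : t ^ 3 + ι a * t + ι b = ι (k ^ 3 + a * k + b) -
      (ι k - t) * (ι k ^ 2 + ι k * t + t ^ 2 + ι a) := by
    simp only [map_add, map_mul, map_pow]
    ring
  have h2 : vv v (ι k ^ 2 + ι k * t + t ^ 2 + ι a) ≤ 1 := by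
    refine (vv v).map_add_le ((vv v).map_add_le ((vv v).map_add_le ?_ ?_) ?_) hai
    · rw [map_pow]
      exact pow_le_one' hk1' 2
    · rw [map_mul]
      exact mul_le_one' hk1' ht
    · rw [map_pow]
      exact pow_le_one' ht 2
  have h3 : vv v ((ι k - t) * (ι k ^ 2 + ι k * t + t ^ 2 + ι a)) < 1 := by
    rw [map_mul]
    exact mul_lt_one_of_lt_of_le hk h2
  rw [e, Valuation.map_sub_eq_of_lt_left _ (by rw [h1']; exact h3), h1']

variable {L : Type} [Field L] [NumberField L] [Algebra K L]

theorem par {a b : 𝓞 K} {θ : L} (hθ : θ ^ 3 + algebraMap K L a * θ + algebraMap K L b = 0)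
    {D : 𝓞 K} (hD : D ≠ 0)
    (hD2 : ∀ v : HeightOneSpectrum (𝓞 K), 2 * (4 * a ^ 3 + 27 * b ^ 2) ∉ v.asIdeal →
      D ∈ v.asIdeal → v.valuation K (D : K) = exp (-1 : ℤ) ∧
        ∀ X : 𝓞 K, X ^ 3 + a * X + b ∉ v.asIdeal)
    (w : HeightOneSpectrum (𝓞 L)) (v : HeightOneSpectrum (𝓞 K))
    (hw : 2 * (4 * a ^ 3 + 27 * b ^ 2) ∉ v.asIdeal)
    (j : v.adicCompletion K →+* w.adicCompletion L)
    (hj : ∀ x : K, j (algebraMap K (v.adicCompletion K) x) =
      algebraMap K (w.adicCompletion L) x)
    (hle : ∀ y, vv v y ≤ 1 → vv w (j y) ≤ 1)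
    (hlt : ∀ y, vv v y < 1 → vv w (j y) < 1) {z : L}
    (hloc : LocC (crv ((a : K) * (D : K) ^ 2) ((b : K) * (D : K) ^ 3)) j
      (algebraMap K L D * θ) z) :
    IsSquare (w.valuation L z) := by
  set ι := algebraMap K (v.adicCompletion K) with hι
  set W := crv ((a : K) * (D : K) ^ 2) ((b : K) * (D : K) ^ 3) with hW
  set κ := algebraMap L (w.adicCompletion L) with hκ
  have hκK : ∀ x : K, algebraMap K (w.adicCompletion L) x = κ (algebraMap K L x) := fun x => rfl
  obtain ⟨g, D', hg, hz, hD'⟩ := hloc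
  have hcub : ∀ x : v.adicCompletion K, cub W x = x ^ 3 + ι ((a : K) * (D : K) ^ 2) * x +
      ι ((b : K) * (D : K) ^ 3) := by
    intro x
    simp only [cub, hW, crv, map_zero]
    ring
  have hcubE : ∀ x : w.adicCompletion L, cub W x = x ^ 3 +
      algebraMap K _ ((a : K) * (D : K) ^ 2) * x + algebraMap K _ ((b : K) * (D : K) ^ 3) := by
    intro x
    simp only [cub, hW, crv, map_zero]
    ring
  have hcub' : ∀ x : v.adicCompletion K, cub' W x = 3 * x ^ 2 +
      ι ((a : K) * (D : K) ^ 2) := by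
    intro x
    simp only [cub', hW, crv, map_zero]
    ring
  have hVint : ∀ x : 𝓞 L, vv w (κ x) ≤ 1 := fun x => by
    rw [hκ, vv_coe]
    exact w.valuation_le_one x
  have hvint : ∀ x : 𝓞 K, vv v (ι (x : K)) ≤ 1 := fun x => by
    rw [hι, vv_coe]
    exact v.valuation_le_one x
  obtain ⟨t0, ht0⟩ := theta_int hθ
  have hθ1 : vv w (κ θ) ≤ 1 := by
    rw [← ht0]
    exact hVint t0
  have hDL : vv w (κ (algebraMap K L D)) ≤ 1 := hVint (algebraMap (𝓞 K) (𝓞 L) D)
  have hD0 : (D : K) ≠ 0 := fun h => hD (RingOfIntegers.ext h)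
  have hsuff : IsSquare (vv w D') := by
    rcases hD' with rfl | ⟨x, y, hxy, hx⟩
    · rw [map_one]; exact ⟨1, (mul_one 1).symm⟩
    by_cases hDv : D ∈ v.asIdeal
    · obtain ⟨h1, h2⟩ := hD2 v hw hDv
      have hDv0 : ι (D : K) ≠ 0 := (map_ne_zero _).2 hD0
      set t := x / ι (D : K) with ht
      have hxt : x = ι (D : K) * t := by rw [ht]; field_simp
      have hyt : y ^ 2 = ι (D : K) ^ 3 * (t ^ 3 + ι a * t + ι b) := by
        rw [hxy, hcub, hxt]
        simp only [map_mul, map_pow]
        ring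
      have ht1 : ¬ vv v t ≤ 1 := by
        intro h3
        have h6 := root_kv h2 h3
        have h7 := congrArg (vv v) hyt
        rw [map_mul, map_pow, map_pow, h6, hι, vv_coe, h1, mul_one] at h7
        have h8 : vv v y ≠ 0 := by
          intro h9
          rw [h9, zero_pow two_ne_zero] at h7
          exact pow_ne_zero 3 exp_ne_zero h7.symm
        obtain ⟨k, hk⟩ : ∃ k : ℤ, vv v y = exp k := ⟨log (vv v y), (exp_log h8).symm⟩
        rw [hk, ← exp_nsmul, ← exp_nsmul, exp_inj] at h7
        simp only [nsmul_eq_mul] at h7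
        push_cast at h7
        omega
      set T := j t with hT
      set DD := κ (algebraMap K L D) with hDD
      have hT1 : 1 < vv w T := by
        by_contra h3
        exact ht1 (le_of_j (vv v) (vv w) j hlt (not_lt.1 h3))
      have hjx : j x = DD * T := by
        rw [hxt, map_mul, hj, hκK]
      have hDD0 : DD ≠ 0 := (map_ne_zero _).2 ((map_ne_zero _).2 hD0)
      have hVD0 : vv w DD ≠ 0 := (Valuation.ne_zero_iff _).2 hDD0
      have hTθ : vv w (T - κ θ) = vv w T := (vv w).map_sub_eq_of_lt_left (hθ1.trans_lt hT1)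
      have hne : j x ≠ κ (algebraMap K L D * θ) := by
        rw [hjx, map_mul]
        intro h3
        have h4 := mul_left_cancel₀ hDD0 h3
        rw [h4] at hT1
        exact absurd hθ1 (not_le.2 hT1)
      obtain ⟨-, rfl⟩ := hx.resolve_left fun h => hne h.1
      set A := κ (algebraMap K L a) with hA
      have hA1 : vv w A ≤ 1 := hVint (algebraMap (𝓞 K) (𝓞 L) a)
      have hy1 : (j y) ^ 2 = DD ^ 3 * ((T - κ θ) * (T ^ 2 + T * κ θ + (κ θ) ^ 2 + A)) := by
        have h3 := congrArg j hyt
        simp only [map_add, map_mul, map_pow, hj, hκK] at h3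
        rw [h3]
        have h4 := congrArg κ hθ
        simp only [map_add, map_mul, map_pow, map_zero] at h4
        linear_combination (DD ^ 3) * h4
      have hT2 : vv w T < vv w T ^ 2 := by
        rw [sq]
        exact lt_mul_of_one_lt_left (zero_lt_one.trans hT1) hT1
      have h2' : vv w (T ^ 2 + T * κ θ + (κ θ) ^ 2 + A) = vv w T ^ 2 := by
        have e : T ^ 2 + T * κ θ + (κ θ) ^ 2 + A = (T * κ θ + (κ θ) ^ 2 + A) + T ^ 2 := by ring
        rw [e, (vv w).map_add_eq_of_lt_right, map_pow]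
        rw [map_pow]
        refine (vv w).map_add_lt ((vv w).map_add_lt ?_ ?_) ((hA1.trans_lt hT1).trans hT2)
        · rw [map_mul]
          exact (mul_le_of_le_one_right' hθ1).trans_lt hT2
        · rw [map_pow]
          exact (pow_le_one' hθ1 2).trans_lt (hT1.trans hT2)
      have hy2 := congrArg (vv w) hy1
      rw [map_pow, map_mul, map_mul, map_pow, hTθ, h2'] at hy2
      have hVT0 : vv w T ≠ 0 := (zero_lt_one.trans hT1).ne'
      have e2 : j x - κ (algebraMap K L D * θ) = DD * (T - κ θ) := by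
        rw [hjx, map_mul]; ring
      rw [e2, map_mul, hTθ]
      refine ⟨vv w (j y) / (vv w DD * vv w T), ?_⟩
      rw [← sq, div_pow, hy2, eq_div_iff (pow_ne_zero 2 (mul_ne_zero hVD0 hVT0)), ← pow_succ',
        mul_pow, ← pow_succ']
    · refine parC (K := K) W (vv v) (vv w) j hj hle hlt ?_ ?_ ?_ ?_ ?_ hxy hx
      · have : W.a₂ = 0 := rfl
        rw [this, map_zero, map_zero]
        exact zero_le
      · have e : W.a₄ = ((a * D ^ 2 : 𝓞 K) : K) := by
          simp only [hW, crv, map_mul, map_pow]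
        rw [e]
        exact hvint _
      · intro x hx1 h1 h2
        exfalso
        have e1 : ι ((D ^ 6 * (2 * (4 * a ^ 3 + 27 * b ^ 2)) : 𝓞 K) : K) =
            2 * (cub' W x * (6 * ι ((a * D ^ 2 : 𝓞 K) : K) * x ^ 2 -
              9 * ι ((b * D ^ 3 : 𝓞 K) : K) * x + 4 * ι ((a * D ^ 2 : 𝓞 K) : K) ^ 2) -
              cub W x * (18 * ι ((a * D ^ 2 : 𝓞 K) : K) * x - 27 * ι ((b * D ^ 3 : 𝓞 K) : K))) := by
          rw [hcub, hcub']
          simp only [map_mul, map_add, map_pow, map_ofNat]
          ring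
        have hn : ∀ n : ℕ, vv v (n : v.adicCompletion K) ≤ 1 := fun n => by
          have h3 := hvint (n : 𝓞 K)
          have h4 : ι (((n : 𝓞 K)) : K) = (n : v.adicCompletion K) :=
            map_natCast (ι.comp (algebraMap (𝓞 K) K)) n
          rwa [h4] at h3
        have h6 : vv v (6 * ι ((a * D ^ 2 : 𝓞 K) : K) * x ^ 2 -
              9 * ι ((b * D ^ 3 : 𝓞 K) : K) * x + 4 * ι ((a * D ^ 2 : 𝓞 K) : K) ^ 2) ≤ 1 := by
          refine (vv v).map_add_le ((vv v).map_sub_le ?_ ?_) ?_
          · rw [map_mul, map_mul, map_pow]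
            exact mul_le_one' (mul_le_one' (by exact_mod_cast hn 6) (hvint _)) (pow_le_one' hx1 2)
          · rw [map_mul, map_mul]
            exact mul_le_one' (mul_le_one' (by exact_mod_cast hn 9) (hvint _)) hx1
          · rw [map_mul, map_pow]
            exact mul_le_one' (by exact_mod_cast hn 4) (pow_le_one' (hvint _) 2)
        have h7 : vv v (18 * ι ((a * D ^ 2 : 𝓞 K) : K) * x - 27 * ι ((b * D ^ 3 : 𝓞 K) : K)) ≤ 1 := by
          refine (vv v).map_sub_le ?_ ?_
          · rw [map_mul, map_mul]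
            exact mul_le_one' (mul_le_one' (by exact_mod_cast hn 18) (hvint _)) hx1
          · rw [map_mul]
            exact mul_le_one' (by exact_mod_cast hn 27) (hvint _)
        have h8 : vv v (ι ((D ^ 6 * (2 * (4 * a ^ 3 + 27 * b ^ 2)) : 𝓞 K) : K)) < 1 := by
          rw [e1, map_mul]
          refine mul_lt_one_of_nonneg_of_lt_one_right (by exact_mod_cast hn 2) zero_le
            ((vv v).map_sub_lt ?_ ?_)
          · rw [map_mul]
            exact mul_lt_one_of_lt_of_le h2 h6
          · rw [map_mul]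
            exact mul_lt_one_of_lt_of_le h1 h7
        rw [hι, vv_coe] at h8
        have h9 := (v.valuation_lt_one_iff_mem (K := K) _).1 h8
        rcases v.isPrime.mem_or_mem h9 with h10 | h10
        · exact hDv (v.isPrime.mem_of_pow_mem 6 h10)
        · exact hw h10
      · rw [hcubE, hκK, hκK, ← hκ, ← map_pow, ← map_mul, ← map_add, ← map_add]
        rw [_root_.map_eq_zero]
        simp only [map_mul, map_pow]
        linear_combination (algebraMap K L D) ^ 3 * hθ
      · rw [map_mul, map_mul]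
        exact mul_le_one' hDL hθ1
  obtain ⟨s, hs⟩ := hsuff
  refine ⟨vv w g * s, ?_⟩
  rw [← vv_coe, ← hκ, hz, map_mul, map_pow, hs]
  rw [sq, mul_mul_mul_comm]

end Pool.Agent.K4H55.BK
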