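import Pool.Agent.K4H55.BK.Ten
import Pool.Agent.Y682.Lcl

/-!
Local points which are not of order four.
-/

set_option autoImplicit false
set_option linter.all false

open NumberField IsDedekindDomain WithZero WeierstrassCurve WeierstrassCurve.Affine Polynomial
open scoped Classical

namespace Pool.Agent.K4H55.BK

open Pool.Agent.TH115.GD hiding crv
open Pool.Agent.K4H55.BD (crv equation_iff nonsingular_of)
open Pool.Agent.Y682 (vv vv_coe exists_sqrt)

section tor

variable {F : Type} [Field F] {W : Affine F} {a b c : F}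

lemma two_fin (h : IsC W a b c) : {P : W.Point | P + P = 0}.Finite := by
  refine Set.Finite.of_injOn (f := fun P => (sC a P, sC b P))
    (t := ({1, -1} : Set F) ×ˢ ({1, -1} : Set F)) ?_ ?_ (Set.toFinite _)
  · intro P _
    refine ⟨?_, ?_⟩
    · simpa using sC_sq (a := a) P
    · simpa using sC_sq (a := b) P
  · intro P hP Q hQ hPQ
    simp only [Prod.mk.injEq] at hPQ
    exact sC_ext h hP hQ hPQ.1 hPQ.2

lemma four_fin (h : IsC W a b c) : {P : W.Point | (P + P) + (P + P) = 0}.Finite := by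
  refine Set.Finite.of_finite_fibers (f := fun P => P + P) ?_ ?_
  · refine (two_fin h).subset ?_
    rintro _ ⟨P, hP, rfl⟩
    exact hP
  · rintro _ ⟨P0, hP0, rfl⟩
    refine ((two_fin h).image (fun T => P0 + T)).subset ?_
    rintro P ⟨-, hP⟩
    have hP' : P + P = P0 + P0 := hP
    refine ⟨P - P0, ?_, by simp⟩
    show (P - P0) + (P - P0) = 0
    rw [sub_add_sub_comm, hP', sub_self]

end tor

section pts

variable {K : Type} [Field K] [NumberField K] (v : HeightOneSpectrum (𝓞 K))

lemma exp_ge (γ : WithZero (Multiplicative ℤ)) : ∃ c : ℕ, γ ≤ exp (c : ℤ) := by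
  by_cases h : γ = 0
  · exact ⟨0, by rw [h]; exact zero_le⟩
  · refine ⟨(log γ).toNat, ?_⟩
    rw [← exp_log h, exp_le_exp, log_exp]
    exact Int.self_le_toNat _

theorem exists_pts (A B : K) : ∃ P : ℕ → Pt (crv A B) (v.adicCompletion K),
    Function.Injective P := by
  obtain ⟨π, hπ⟩ := v.valuation_exists_uniformizer K
  have hπ0 : π ≠ 0 := by
    rintro rfl
    rw [map_zero] at hπ
    exact exp_ne_zero hπ.symm
  obtain ⟨c1, hc1⟩ := exp_ge (v.valuation K A)
  obtain ⟨c2, hc2⟩ := exp_ge (v.valuation K B)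
  have h40 : v.valuation K (4 : K) ≠ 0 := (Valuation.ne_zero_iff _).2 (by norm_num)
  obtain ⟨c3, hc3⟩ := exp_ge (v.valuation K (4 : K))⁻¹
  have hc3' : exp (-(c3 : ℤ)) ≤ v.valuation K (4 : K) := by
    rw [exp_neg]
    exact inv_le_of_inv_le₀ (zero_lt_iff.2 h40) hc3
  set N := c1 + c2 + c3 + 1 with hN
  have key : ∀ n : ℕ, ∃ y0 : v.adicCompletion K, y0 ^ 2 =
      1 + algebraMap K (v.adicCompletion K) (A * π ^ (4 * (N + n)) + B * π ^ (6 * (N + n))) := by
    intro n
    apply exists_sqrt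
    have h4 : vv v 4 = v.valuation K (4 : K) := by
      have h5 := vv_coe v (4 : K)
      rwa [map_ofNat] at h5
    rw [vv_coe, h4]
    refine lt_of_lt_of_le ?_ hc3'
    refine (Valuation.map_add _ _ _).trans_lt (max_lt ?_ ?_)
    · rw [map_mul, map_pow, hπ, ← exp_nsmul]
      refine (mul_le_mul' hc1 le_rfl).trans_lt ?_
      rw [← exp_add, exp_lt_exp, nsmul_eq_mul]
      push_cast
      omega
    · rw [map_mul, map_pow, hπ, ← exp_nsmul]
      refine (mul_le_mul' hc2 le_rfl).trans_lt ?_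
      rw [← exp_add, exp_lt_exp, nsmul_eq_mul]
      push_cast
      omega
  choose y0 hy0 using key
  set ι := algebraMap K (v.adicCompletion K) with hι
  have hy00 : ∀ n, y0 n ≠ 0 := by
    intro n h
    have h1 := hy0 n
    rw [h, zero_pow two_ne_zero] at h1
    have h2 : vv v (ι (A * π ^ (4 * (N + n)) + B * π ^ (6 * (N + n)))) < 1 := by
      rw [vv_coe]
      refine (Valuation.map_add _ _ _).trans_lt (max_lt ?_ ?_)
      · rw [map_mul, map_pow, hπ, ← exp_nsmul]
        refine (mul_le_mul' hc1 le_rfl).trans_lt ?_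
        rw [← exp_add, ← exp_zero, exp_lt_exp, nsmul_eq_mul]
        push_cast
        omega
      · rw [map_mul, map_pow, hπ, ← exp_nsmul]
        refine (mul_le_mul' hc2 le_rfl).trans_lt ?_
        rw [← exp_add, ← exp_zero, exp_lt_exp, nsmul_eq_mul]
        push_cast
        omega
    have h3 : ι (A * π ^ (4 * (N + n)) + B * π ^ (6 * (N + n))) = -1 := by
      linear_combination -h1
    rw [h3, Valuation.map_neg, map_one] at h2
    exact lt_irrefl _ h2
  have hns : ∀ n, ((crv A B).baseChange (v.adicCompletion K)).toAffine.Nonsingular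
      (ι (π ^ (N + n))⁻¹ ^ 2) (ι (π ^ (N + n))⁻¹ ^ 3 * y0 n) := by
    intro n
    have hs0 : ι (π ^ (N + n))⁻¹ ≠ 0 := (_root_.map_ne_zero _).2 (inv_ne_zero (pow_ne_zero _ hπ0))
    have hp0 : ι (π ^ (N + n)) ≠ 0 := (_root_.map_ne_zero _).2 (pow_ne_zero _ hπ0)
    have e : (ι (π ^ (N + n))⁻¹ ^ 3 * y0 n) ^ 2 = (ι (π ^ (N + n))⁻¹ ^ 2) ^ 3 +
        ι A * (ι (π ^ (N + n))⁻¹ ^ 2) + ι B := by
      have h1 := hy0 n
      rw [mul_pow, h1]
      have e4 : π ^ (4 * (N + n)) = (π ^ (N + n)) ^ 4 := by rw [← pow_mul]; ring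
      have e6 : π ^ (6 * (N + n)) = (π ^ (N + n)) ^ 6 := by rw [← pow_mul]; ring
      rw [e4, e6]
      simp only [map_add, map_mul, map_pow _ _ 4, map_pow _ _ 6, map_inv₀]
      field_simp
      ring
    have h0 : ι (π ^ (N + n))⁻¹ ^ 3 * y0 n ≠ 0 := mul_ne_zero (pow_ne_zero _ hs0) (hy00 n)
    have hmap : ((crv A B).baseChange (v.adicCompletion K)) = crv (ι A) (ι B) := by
      ext
      · exact map_zero _
      · exact map_zero _
      · exact map_zero _
      · rfl
      · rfl
    have h2 : (2 : v.adicCompletion K) ≠ 0 := by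
      have h3 : ι 2 ≠ 0 := (_root_.map_ne_zero _).2 two_ne_zero
      rwa [map_ofNat] at h3
    have h5 := nonsingular_of h2 e h0
    rw [← hmap] at h5
    exact h5
  refine ⟨fun n => Point.some _ _ (hns n), fun m n hmn => ?_⟩
  have h1 := (Point.some.inj hmn).1
  have h2 := congrArg (vv v) h1
  rw [map_pow, map_pow, vv_coe, vv_coe, map_inv₀, map_inv₀, map_pow, map_pow, hπ, ← exp_nsmul,
    ← exp_nsmul, ← exp_neg, ← exp_neg, ← exp_nsmul, ← exp_nsmul, exp_inj] at h2
  simp only [nsmul_eq_mul] at h2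
  push_cast at h2
  omega

theorem exists_not_four {A B : K} {Ω' : Type} [Field Ω'] [Algebra (v.adicCompletion K) Ω']
    [Algebra K Ω'] [IsScalarTower K (v.adicCompletion K) Ω'] {a b c : Ω'}
    (h : IsC ((crv A B).baseChange Ω').toAffine a b c) :
    ∃ Z : Pt (crv A B) (v.adicCompletion K), (Z + Z) + (Z + Z) ≠ 0 := by
  by_contra hcon
  push Not at hcon
  obtain ⟨P, hP⟩ := exists_pts v A B
  have h1 : Function.Injective fun n => act (crv A B) (incl K (v.adicCompletion K) Ω') (P n) :=
    (act_inj (crv A B) (incl K (v.adicCompletion K) Ω')).comp hP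
  have h2 : (Set.range fun n => act (crv A B) (incl K (v.adicCompletion K) Ω') (P n)).Finite := by
    refine (four_fin h).subset ?_
    rintro _ ⟨n, rfl⟩
    show _ = _
    rw [← map_add, ← map_add, hcon (P n), map_zero]
  exact Set.infinite_range_of_injective h1 h2

end pts

end Pool.Agent.K4H55.BK
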