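import Pool.Agent.K4H55.BK.Tf

/-!
The local condition in the tensor product.
-/

set_option autoImplicit false
set_option linter.all false

open NumberField IsDedekindDomain WithZero WeierstrassCurve WeierstrassCurve.Affine Polynomial
open scoped Classical TensorProduct

namespace Pool.Agent.K4H55.BK

open Pool.Agent.TH115.GD
open Pool.Agent.K4H55.BD (Cub)

section van

variable {F : Type} [Field F] {e1 e2 e3 : F}

lemma van (h12 : e1 ≠ e2) (h13 : e1 ≠ e3) (h23 : e2 ≠ e3) {p q r : F}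
    (k1 : p + q * e1 + r * e1 ^ 2 = 0) (k2 : p + q * e2 + r * e2 ^ 2 = 0)
    (k3 : p + q * e3 + r * e3 ^ 2 = 0) : p = 0 ∧ q = 0 ∧ r = 0 := by
  have a1 : (e1 - e2) * (q + r * (e1 + e2)) = 0 := by linear_combination k1 - k2
  have a2 : (e1 - e3) * (q + r * (e1 + e3)) = 0 := by linear_combination k1 - k3
  have b1 := (mul_eq_zero.1 a1).resolve_left (sub_ne_zero.2 h12)
  have b2 := (mul_eq_zero.1 a2).resolve_left (sub_ne_zero.2 h13)
  have b3 : r * (e2 - e3) = 0 := by linear_combination b1 - b2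
  have hr := (mul_eq_zero.1 b3).resolve_right (sub_ne_zero.2 h23)
  subst hr
  have hq : q = 0 := by linear_combination b1
  subst hq
  exact ⟨by linear_combination k1, rfl, rfl⟩

lemma interp0 (h12 : e1 ≠ e2) (h13 : e1 ≠ e3) (h23 : e2 ≠ e3) (u1 u2 u3 : F) :
    ∃ p q r : F, u1 = p + q * e1 + r * e1 ^ 2 ∧ u2 = p + q * e2 + r * e2 ^ 2 ∧
      u3 = p + q * e3 + r * e3 ^ 2 := by
  have d12 := sub_ne_zero.2 h12
  have d13 := sub_ne_zero.2 h13
  have d23 := sub_ne_zero.2 h23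
  set l1 := u1 / ((e1 - e2) * (e1 - e3)) with hl1
  set l2 := u2 / ((e1 - e2) * (e2 - e3)) with hl2
  set l3 := u3 / ((e1 - e3) * (e2 - e3)) with hl3
  have k1 : l1 * ((e1 - e2) * (e1 - e3)) = u1 := div_mul_cancel₀ _ (mul_ne_zero d12 d13)
  have k2 : l2 * ((e1 - e2) * (e2 - e3)) = u2 := div_mul_cancel₀ _ (mul_ne_zero d12 d23)
  have k3 : l3 * ((e1 - e3) * (e2 - e3)) = u3 := div_mul_cancel₀ _ (mul_ne_zero d13 d23)
  refine ⟨l1 * e2 * e3 - l2 * e1 * e3 + l3 * e1 * e2,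
    -(l1 * (e2 + e3) - l2 * (e1 + e3) + l3 * (e1 + e2)), l1 - l2 + l3, ?_, ?_, ?_⟩
  · linear_combination -k1
  · linear_combination -k2
  · linear_combination -k3

end van

section interp

variable {Kv Ω' Ω : Type} [Field Kv] [Field Ω'] [Algebra Kv Ω'] [IsGalois Kv Ω']

theorem interp {a b c : Ω} (n u : Ω → Ω') (hab : n a ≠ n b) (hac : n a ≠ n c) (hbc : n b ≠ n c)
    (hs : ∀ τ : Ω' ≃ₐ[Kv] Ω', ∀ e', (e' = a ∨ e' = b ∨ e' = c) →
      ∃ e, (e = a ∨ e = b ∨ e = c) ∧ τ (n e) = n e' ∧ τ (u e) = u e') :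
    ∃ p q r : Kv, ∀ e, (e = a ∨ e = b ∨ e = c) →
      u e = algebraMap Kv Ω' p + algebraMap Kv Ω' q * n e + algebraMap Kv Ω' r * n e ^ 2 := by
  obtain ⟨p, q, r, h1, h2, h3⟩ := interp0 hab hac hbc (u a) (u b) (u c)
  have hall : ∀ e, (e = a ∨ e = b ∨ e = c) → u e = p + q * n e + r * n e ^ 2 := by
    rintro e (rfl | rfl | rfl)
    · exact h1
    · exact h2
    · exact h3
  have key : ∀ τ : Ω' ≃ₐ[Kv] Ω', τ p = p ∧ τ q = q ∧ τ r = r := by
    intro τ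
    have h4 : ∀ e', (e' = a ∨ e' = b ∨ e' = c) →
        (τ p - p) + (τ q - q) * n e' + (τ r - r) * n e' ^ 2 = 0 := by
      intro e' he'
      obtain ⟨e, he, h5, h6⟩ := hs τ e' he'
      have h7 := congrArg τ (hall e he)
      simp only [map_add, map_mul, map_pow] at h7
      rw [h5, h6, hall e' he'] at h7
      linear_combination -h7
    obtain ⟨k1, k2, k3⟩ := van hab hac hbc (h4 a (Or.inl rfl)) (h4 b (Or.inr (Or.inl rfl)))
      (h4 c (Or.inr (Or.inr rfl)))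
    exact ⟨sub_eq_zero.1 k1, sub_eq_zero.1 k2, sub_eq_zero.1 k3⟩
  obtain ⟨p', rfl⟩ : p ∈ Set.range (algebraMap Kv Ω') := by
    rw [InfiniteGalois.mem_range_algebraMap_iff_fixed]
    exact fun τ => (key τ).1
  obtain ⟨q', rfl⟩ : q ∈ Set.range (algebraMap Kv Ω') := by
    rw [InfiniteGalois.mem_range_algebraMap_iff_fixed]
    exact fun τ => (key τ).2.1
  obtain ⟨r', rfl⟩ : r ∈ Set.range (algebraMap Kv Ω') := by
    rw [InfiniteGalois.mem_range_algebraMap_iff_fixed]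
    exact fun τ => (key τ).2.2
  exact ⟨p', q', r', hall⟩

end interp

section ev

variable {K L Kv Ω' : Type} [Field K] [Field L] [Field Kv] [Field Ω'] [Algebra K L] [Algebra K Kv]
  [Algebra Kv Ω'] [Algebra K Ω'] [IsScalarTower K Kv Ω']

/-- the evaluation of an element of the tensor product -/
noncomputable def ev (φ : L →ₐ[K] Ω') : Kv ⊗[K] L →ₐ[K] Ω' :=
  Algebra.TensorProduct.productMap (IsScalarTower.toAlgHom K Kv Ω') φ

lemma ev_tmul (φ : L →ₐ[K] Ω') (x : Kv) (y : L) :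
    ev φ (x ⊗ₜ[K] y) = algebraMap Kv Ω' x * φ y := by
  simp [ev]

lemma span_tensor {θ : L} (hc : Cub K θ) (X : Kv ⊗[K] L) : ∃ p q r : Kv,
    X = p ⊗ₜ[K] (1 : L) + q ⊗ₜ[K] θ + r ⊗ₜ[K] (θ ^ 2) := by
  induction X using TensorProduct.induction_on with
  | zero => exact ⟨0, 0, 0, by simp⟩
  | tmul x y =>
    obtain ⟨u, v, w, rfl⟩ := hc.span y
    refine ⟨u • x, v • x, w • x, ?_⟩
    rw [TensorProduct.tmul_add, TensorProduct.tmul_add, Algebra.algebraMap_eq_smul_one,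
      ← Algebra.smul_def, ← Algebra.smul_def, TensorProduct.smul_tmul, TensorProduct.smul_tmul,
      TensorProduct.smul_tmul]
  | add X Y hX hY =>
    obtain ⟨p, q, r, rfl⟩ := hX
    obtain ⟨p', q', r', rfl⟩ := hY
    refine ⟨p + p', q + q', r + r', ?_⟩
    rw [TensorProduct.add_tmul, TensorProduct.add_tmul, TensorProduct.add_tmul]
    abel

theorem ev_inj {θ : L} (hc : Cub K θ) {φ1 φ2 φ3 : L →ₐ[K] Ω'} (h12 : φ1 θ ≠ φ2 θ)
    (h13 : φ1 θ ≠ φ3 θ) (h23 : φ2 θ ≠ φ3 θ) {X Y : Kv ⊗[K] L} (h1 : ev φ1 X = ev φ1 Y)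
    (h2 : ev φ2 X = ev φ2 Y) (h3 : ev φ3 X = ev φ3 Y) : X = Y := by
  have key : ∀ Z : Kv ⊗[K] L, ev φ1 Z = 0 → ev φ2 Z = 0 → ev φ3 Z = 0 → Z = 0 := by
    intro Z k1 k2 k3
    obtain ⟨p, q, r, rfl⟩ := span_tensor hc Z
    simp only [map_add, ev_tmul, map_one, mul_one, map_pow] at k1 k2 k3
    obtain ⟨e1, e2, e3⟩ := van h12 h13 h23 k1 k2 k3
    have inj := (algebraMap Kv Ω').injective
    have e1' : p = 0 := inj (by rw [e1, map_zero])
    have e2' : q = 0 := inj (by rw [e2, map_zero])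
    have e3' : r = 0 := inj (by rw [e3, map_zero])
    rw [e1', e2', e3']
    simp
  rw [← sub_eq_zero]
  exact key _ (by rw [map_sub, h1, sub_self]) (by rw [map_sub, h2, sub_self])
    (by rw [map_sub, h3, sub_self])

end ev

section hcc

variable {F : Type} [Field F] {W : Affine F} {e p q p' q' : F}

lemma isC_root (h : IsC W e p q) {x : F} (hx : x ^ 3 + W.a₂ * x ^ 2 + W.a₄ * x + W.a₆ = 0) :
    x = e ∨ x = p ∨ x = q := by
  have h1 : (x - e) * (x - p) * (x - q) = 0 := by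
    rw [h.a2, h.a4, h.a6] at hx
    linear_combination hx
  rcases mul_eq_zero.1 h1 with h1 | h1
  · rcases mul_eq_zero.1 h1 with h3 | h3
    · exact Or.inl (sub_eq_zero.1 h3)
    · exact Or.inr (Or.inl (sub_eq_zero.1 h3))
  · exact Or.inr (Or.inr (sub_eq_zero.1 h1))

lemma hc_eq_of (h : IsC W e p q) (h' : IsC W e p' q') (P : W.Point) :
    hc e p q P = hc e p' q' P := by
  have hp : p' = e ∨ p' = p ∨ p' = q := isC_root h (by
    rw [h'.a2, h'.a4, h'.a6]; ring)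
  have hq : q' = e ∨ q' = p ∨ q' = q := isC_root h (by
    rw [h'.a2, h'.a4, h'.a6]; ring)
  rcases hp with hp | hp | hp
  · exact absurd hp.symm h'.ab
  · rcases hq with hq | hq | hq
    · exact absurd hq.symm h'.ac
    · exact absurd (hp.trans hq.symm) h'.bc
    · rw [hp, hq]
  · rcases hq with hq | hq | hq
    · exact absurd hq.symm h'.ac
    · rw [hp, hq, hc_swap]
    · exact absurd (hp.trans hq.symm) h'.bc

end hcc

section tens

variable {K Ω L Kv Ω' : Type} [Field K] [Field Ω] [Field L] [Field Kv] [Field Ω']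
  [Algebra K Ω] [IsGalois K Ω] [IsSepClosed Ω] [Algebra K L] [Algebra L Ω] [IsScalarTower K L Ω]
  [Algebra K Kv] [Algebra Kv Ω'] [Algebra K Ω'] [IsScalarTower K Kv Ω'] [IsGalois Kv Ω']
  [IsSepClosed Ω'] (W : WeierstrassCurve K)

/-- `2 P` can be chosen of order different from two -/
theorem shift {a b c : Ω} (hC : IsC (W.baseChange Ω).toAffine a b c)
    {f : (Ω ≃ₐ[K] Ω) → Pt W Ω} (hf2 : ∀ σ, f σ + f σ = 0)
    (hloc : LocTriv W Kv Ω' f) (hZ : ∃ Z : Pt W Kv, (Z + Z) + (Z + Z) ≠ 0) :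
    ∃ (ι : Ω →ₐ[K] Ω') (P : Pt W Ω') (Q : Pt W Kv), P + P = act W (incl K Kv Ω') Q ∧ Q + Q ≠ 0 ∧
      ∀ (τ : Ω' ≃ₐ[Kv] Ω') (σ : Ω ≃ₐ[K] Ω), (∀ x, τ (ι x) = ι (σ x)) →
        act W ι (f σ) = act W (rs K τ) P - P := by
  obtain ⟨ι, P, hP⟩ := hloc
  have hP' : ∀ (τ : Ω' ≃ₐ[Kv] Ω') (σ : Ω ≃ₐ[K] Ω), (∀ x, τ (ι x) = ι (σ x)) →
        act W ι (f σ) = act W (rs K τ) P - P := hP
  choose res hres using exists_restrict (F := K) (Ω := Ω) (L := Kv) (Ω' := Ω') ι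
  have hPP : ∀ τ : Ω' ≃ₐ[Kv] Ω', act W (rs K τ) (P + P) = P + P := by
    intro τ
    have h1 : act W (rs K τ) P = P + act W ι (f (res τ)) := by rw [hP' τ _ (hres τ)]; abel
    rw [map_add, h1, add_add_add_comm, (two_act W ι _).2 (hf2 _), add_zero]
  obtain ⟨Q, hQ⟩ := fixed_point (K := K) (F := Kv) W (P + P) hPP
  by_cases hQQ : Q + Q = 0
  · obtain ⟨Z, hZ⟩ := hZ
    refine ⟨ι, P + act W (incl K Kv Ω') Z, Q + (Z + Z), ?_, ?_, fun τ σ h => ?_⟩
    · rw [map_add, hQ, map_add]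
      abel
    · intro h
      apply hZ
      have e : (Q + (Z + Z)) + (Q + (Z + Z)) = (Q + Q) + ((Z + Z) + (Z + Z)) := by abel
      rw [e, hQQ, zero_add] at h
      exact h
    · rw [hP' τ σ h, map_add, rs_act_incl]
      abel
  · exact ⟨ι, P, Q, hQ.symm, hQQ, hP'⟩

theorem tens {a b c : Ω} (hC : IsC (W.baseChange Ω).toAffine a b c)
    {f : (Ω ≃ₐ[K] Ω) → Pt W Ω} (hf2 : ∀ σ, f σ + f σ = 0)
    (hloc : LocTriv W Kv Ω' f) (hZ : ∃ Z : Pt W Kv, (Z + Z) + (Z + Z) ≠ 0)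
    {z θ : L} (hc' : Cub K θ) (hθ : algebraMap L Ω θ = a) {T : Ω → Ω} {ρ : Ω → (Ω ≃ₐ[K] Ω)}
    (hρ : ∀ e, (e = a ∨ e = b ∨ e = c) → ρ e a = e)
    (claim : ∀ (σ : Ω ≃ₐ[K] Ω) (e : Ω), (e = a ∨ e = b ∨ e = c) →
        σ (T e) = sC (σ e) (f σ) * T (σ e))
    (hsq : ∀ e, (e = a ∨ e = b ∨ e = c) → ∀ φ : L →ₐ[K] Ω, φ θ = e → T e ^ 2 = φ z) :
    ∃ x y : Kv, y ≠ 0 ∧ y ^ 2 = cub W x ∧
      IsSquare (((1 : Kv) ⊗ₜ[K] z) * (x ⊗ₜ[K] (1 : L) - 1 ⊗ₜ[K] θ)) := by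
  obtain ⟨ι, P, Q, hPQ, hQQ, hP⟩ := shift (Kv := Kv) (Ω' := Ω') W hC hf2 hloc hZ
  choose res hres using exists_restrict (F := K) (Ω := Ω) (L := Kv) (Ω' := Ω') ι
  have hC' := hC.map ι
  have hT : ∀ τ : Ω' ≃ₐ[Kv] Ω', act W ι (f (res τ)) = act W (rs K τ) P - P :=
    fun τ => hP τ (res τ) (hres τ)
  have hTT : ∀ τ : Ω' ≃ₐ[Kv] Ω', act W ι (f (res τ)) + act W ι (f (res τ)) = 0 :=
    fun τ => (two_act W ι _).2 (hf2 _)
  have hPP : P + P ≠ 0 := by
    rw [hPQ]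
    intro h
    apply hQQ
    have h1 : Q = 0 := act_inj W (incl K Kv Ω') (by rw [h, map_zero])
    rw [h1, add_zero]
  rcases Q with _ | ⟨x, y, hxy⟩
  · exact absurd (add_zero _) hQQ
  have heq : y ^ 2 = cub W x := hC.eqnL hxy
  have hy : y ≠ 0 := by
    rintro rfl
    apply hQQ
    have h1 : -(Point.some x 0 hxy) = Point.some x 0 hxy := by
      rw [Affine.Point.neg_some]
      have h3 : (W.baseChange Kv).toAffine.negY x 0 = 0 := by
        have a1 : (W.baseChange Kv).toAffine.a₁ = 0 := by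
          show algebraMap K Kv W.a₁ = 0
          have : W.a₁ = 0 := (algebraMap K Ω).injective (by rw [map_zero]; exact hC.a1)
          rw [this, map_zero]
        have a3 : (W.baseChange Kv).toAffine.a₃ = 0 := by
          show algebraMap K Kv W.a₃ = 0
          have : W.a₃ = 0 := (algebraMap K Ω).injective (by rw [map_zero]; exact hC.a3)
          rw [this, map_zero]
        rw [Affine.negY, a1, a3]
        ring
      simp only [h3]
    have h2 := add_neg_cancel (Point.some x 0 hxy)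
    rw [h1] at h2
    exact h2
  refine ⟨x, y, hy, heq, ?_⟩
  set X := algebraMap Kv Ω' x with hX
  -- `x` is not a root
  have hXne : ∀ e, (e = a ∨ e = b ∨ e = c) → X ≠ ι e := by
    intro e he h
    apply hy
    have h1 : cub W (ι e) = 0 := by
      rw [cub_map]
      rcases he with rfl | rfl | rfl
      · rw [hC.root_a, map_zero]
      · rw [hC.root_b, map_zero]
      · rw [hC.root_c, map_zero]
    have h2 : cub W X = algebraMap Kv Ω' (cub W x) := cub_map W (IsScalarTower.toAlgHom K Kv Ω') x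
    rw [← h, h2, ← heq, map_pow] at h1
    exact (_root_.map_eq_zero _).1 (pow_eq_zero_iff (two_ne_zero) |>.1 h1)
  have hcomp : ∀ e : Ω, (e = a ∨ e = b ∨ e = c) →
      ∃ p q : Ω', IsC (W.baseChange Ω').toAffine (ι e) p q := by
    intro e he
    obtain ⟨e', e'', h⟩ := hC.at_root he
    exact ⟨ι e', ι e'', h.map ι⟩
  choose! p q hpq using hcomp
  set u : Ω → Ω' := fun e => ι (T e) * hc (ι e) (p e) (q e) P with hu
  have root : ∀ (σ : Ω ≃ₐ[K] Ω) {e : Ω}, (e = a ∨ e = b ∨ e = c) →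
      (σ e = a ∨ σ e = b ∨ σ e = c) := fun σ e he => hC.act_root (ak σ) he
  have hequiv : ∀ (τ : Ω' ≃ₐ[Kv] Ω') (e : Ω), (e = a ∨ e = b ∨ e = c) →
      τ (u e) = u (res τ e) := by
    intro τ e he
    have he' := root (res τ) he
    have h1 : τ (ι (T e)) = ι (sC (res τ e) (f (res τ))) * ι (T (res τ e)) := by
      rw [hres, claim _ e he, map_mul]
    have h2 : τ (hc (ι e) (p e) (q e) P) =
        sC (ι (res τ e)) (act W ι (f (res τ))) * hc (ι (res τ e)) (p (res τ e)) (q (res τ e)) P := by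
      have e1 : hc ((rs K τ) (ι e)) ((rs K τ) (p e)) ((rs K τ) (q e)) (act W (rs K τ) P) =
          (rs K τ) (hc (ι e) (p e) (q e) P) := hc_act W (rs K τ) _ _ _ P
      have e2 : (rs K τ) (ι e) = ι (res τ e) := hres τ e
      have e3 := (hpq e he).map (rs K τ)
      have e4 : act W (rs K τ) P = P + act W ι (f (res τ)) := by rw [hT]; abel
      rw [e2] at e3 e1
      rw [hc_eq_of e3 (hpq _ he'), e4, hc_translate (hpq _ he') (hTT τ)
        (fun h => absurd h hPP)] at e1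
      exact e1.symm
    have h3 := sC_act W ι (res τ e) (f (res τ))
    have h4 := sC_mul_self (a := ι (res τ e)) (act W ι (f (res τ)))
    show τ (ι (T e) * hc (ι e) (p e) (q e) P) = _
    rw [map_mul, h1, h2, ← h3]
    show _ = ι (T (res τ e)) * hc (ι (res τ e)) (p (res τ e)) (q (res τ e)) P
    linear_combination (ι (T (res τ e)) * hc (ι (res τ e)) (p (res τ e)) (q (res τ e)) P) * h4
  have hne : ∀ {s t : Ω}, s ≠ t → ι s ≠ ι t := fun h h' => h (ι.injective h')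
  obtain ⟨p0, q0, r0, hpqr⟩ := interp (Kv := Kv) (a := a) (b := b) (c := c) (fun e => ι e) u
    (hne hC.ab) (hne hC.ac) (hne hC.bc) (by
      intro τ e' he'
      refine ⟨(res τ)⁻¹ e', root _ he', ?_, ?_⟩
      · show τ (ι _) = ι e'
        rw [hres, ← AlgEquiv.mul_apply, mul_inv_cancel]
        rfl
      · rw [hequiv τ _ (root _ he'), ← AlgEquiv.mul_apply, mul_inv_cancel]
        rfl)
  set i0 : L →ₐ[K] Ω := IsScalarTower.toAlgHom K L Ω with hi0
  set φ : Ω → (L →ₐ[K] Ω') := fun e => ι.comp (((ρ e : Ω ≃ₐ[K] Ω) : Ω →ₐ[K] Ω).comp i0) with hφ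
  have hφθ : ∀ e, (e = a ∨ e = b ∨ e = c) → φ e θ = ι e := by
    intro e he
    show ι (ρ e (algebraMap L Ω θ)) = ι e
    rw [hθ, hρ e he]
  refine ⟨p0 ⊗ₜ[K] (1 : L) + q0 ⊗ₜ[K] θ + r0 ⊗ₜ[K] (θ ^ 2), ?_⟩
  have hev : ∀ e, (e = a ∨ e = b ∨ e = c) →
      ev (φ e) (((1 : Kv) ⊗ₜ[K] z) * (x ⊗ₜ[K] (1 : L) - 1 ⊗ₜ[K] θ)) =
      ev (φ e) ((p0 ⊗ₜ[K] (1 : L) + q0 ⊗ₜ[K] θ + r0 ⊗ₜ[K] (θ ^ 2)) *
        (p0 ⊗ₜ[K] (1 : L) + q0 ⊗ₜ[K] θ + r0 ⊗ₜ[K] (θ ^ 2))) := by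
    intro e he
    simp only [map_mul, map_sub, map_add, ev_tmul, map_one, mul_one, one_mul, map_pow, hφθ e he]
    rw [← hpqr e he]
    have h1 : φ e z = ι (T e) ^ 2 := by
      rw [← map_pow]
      show ι (ρ e (algebraMap L Ω z)) = _
      congr 1
      have := hsq e he (((ρ e : Ω ≃ₐ[K] Ω) : Ω →ₐ[K] Ω).comp i0) (by
        show ρ e (algebraMap L Ω θ) = e
        rw [hθ, hρ e he])
      rw [this]
      rfl
    have h2 : hc (ι e) (p e) (q e) P ^ 2 = X - ι e := by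
      rw [hc_sq (hpq e he), hPQ]
      obtain ⟨h', hh⟩ := act_some W (incl K Kv Ω') hxy
      rw [hh]
      have ex : (incl K Kv Ω') x = X := rfl
      simp only [dc, ex]
      rw [if_neg (hXne e he)]
    rw [h1, ← hX, ← h2]
    show _ = (ι (T e) * hc (ι e) (p e) (q e) P) * (ι (T e) * hc (ι e) (p e) (q e) P)
    ring
  refine ev_inj hc' (φ1 := φ a) (φ2 := φ b) (φ3 := φ c) ?_ ?_ ?_ (hev a (Or.inl rfl))
    (hev b (Or.inr (Or.inl rfl))) (hev c (Or.inr (Or.inr rfl)))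
  · rw [hφθ a (Or.inl rfl), hφθ b (Or.inr (Or.inl rfl))]
    exact hne hC.ab
  · rw [hφθ a (Or.inl rfl), hφθ c (Or.inr (Or.inr rfl))]
    exact hne hC.ac
  · rw [hφθ b (Or.inr (Or.inl rfl)), hφθ c (Or.inr (Or.inr rfl))]
    exact hne hC.bc

end tens

end Pool.Agent.K4H55.BK
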