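import Pool.Agent.Y809.BS.Desc
import Pool.Agent.K4H55.BD.Sel

/-!
Kummer generators over the cubic field: conjugates and the norm.
-/

set_option autoImplicit false
set_option linter.all false

open NumberField IsDedekindDomain WithZero WeierstrassCurve WeierstrassCurve.Affine Polynomial
open scoped Classical

namespace Pool.Agent.K4H55.BK

open Pool.Agent.TH115.GD

section hom

variable {K A Ω : Type} [Field K] [Field A] [Field Ω] [Algebra K A] [Algebra K Ω]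

theorem hom_eq {θ : A} (h : IntermediateField.adjoin K {θ} = ⊤) {φ ψ : A →ₐ[K] Ω}
    (e : φ θ = ψ θ) : φ = ψ := by
  refine AlgHom.ext fun y => ?_
  have hy : y ∈ (⊤ : IntermediateField K A) := trivial
  rw [← h] at hy
  refine IntermediateField.adjoin_induction K (p := fun y _ => φ y = ψ y) ?_ ?_ ?_ ?_ ?_ hy
  · intro y hy
    rw [Set.mem_singleton_iff] at hy
    subst hy
    exact e
  · intro y
    rw [AlgHom.commutes, AlgHom.commutes]
  · intro x y _ _ hx hy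
    rw [map_add, map_add, hx, hy]
  · intro x _ hx
    rw [map_inv₀, map_inv₀, hx]
  · intro x y _ _ hx hy
    rw [map_mul, map_mul, hx, hy]

end hom

section T

variable {K L Ω : Type} [Field K] [Field L] [Field Ω] [Algebra K L] [Algebra L Ω] [Algebra K Ω]
  [IsScalarTower K L Ω] [IsSepClosed Ω] [IsGalois K Ω] {W : WeierstrassCurve K} {a b c : Ω}

/-- the conjugates of the square root of the Kummer generator -/
theorem exists_T (hC : IsC (W.baseChange Ω).toAffine a b c)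
    (hnr : ∀ x : K, cub W x ≠ 0) {θ : L} (hθ : algebraMap L Ω θ = a)
    (htop : IntermediateField.adjoin K {θ} = ⊤)
    {g : (Ω ≃ₐ[K] Ω) → Pt W Ω}
    (hmul : ∀ σ τ, g (σ * τ) = g σ + act W (ak σ) (g τ)) (hg2 : ∀ τ, g τ + g τ = 0)
    {t : Ω} {z : L} (hz : t ^ 2 = algebraMap L Ω z)
    (hk : ∀ τ : Ω ≃ₐ[K] Ω, τ a = a → τ t = sC a (g τ) * t) :
    ∃ (T : Ω → Ω) (ρ : Ω → (Ω ≃ₐ[K] Ω)),
      (∀ e, (e = a ∨ e = b ∨ e = c) → ρ e a = e) ∧
      (∀ (σ : Ω ≃ₐ[K] Ω) (e : Ω), (e = a ∨ e = b ∨ e = c) →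
        σ (T e) = sC (σ e) (g σ) * T (σ e)) ∧
      (∀ e, (e = a ∨ e = b ∨ e = c) → ∀ φ : L →ₐ[K] Ω, φ θ = e → T e ^ 2 = φ z) := by
  have htr : ∀ e : Ω, (e = a ∨ e = b ∨ e = c) → ∃ ρ : Ω ≃ₐ[K] Ω, ρ a = e :=
    fun e he => trans_roots (K := K) (F := K) hC hnr e he
  choose! ρ hρ using htr
  have add : ∀ {e : Ω}, (e = a ∨ e = b ∨ e = c) → ∀ {S T : Pt W Ω}, S + S = 0 → T + T = 0 →
      sC e (S + T) = sC e S * sC e T := by
    intro e he S T hS hT
    obtain ⟨e', e'', hC'⟩ := hC.at_root he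
    exact sC_add hC' hS hT
  have tw2 : ∀ (σ : Ω ≃ₐ[K] Ω) {T : Pt W Ω}, T + T = 0 →
      act W (ak σ) T + act W (ak σ) T = 0 := fun σ T hT => (two_act W _ _).2 hT
  have sga : ∀ (σ : Ω ≃ₐ[K] Ω) (e : Ω) (P : Pt W Ω), sC (σ e) (act W (ak σ) P) = sC e P :=
    fun σ e P => sC_act' W (ak σ) e P
  have root : ∀ (σ : Ω ≃ₐ[K] Ω) {e : Ω}, (e = a ∨ e = b ∨ e = c) →
      (σ e = a ∨ σ e = b ∨ σ e = c) := fun σ e he => hC.act_root (ak σ) he
  have sgn : ∀ (σ : Ω ≃ₐ[K] Ω) (e : Ω) (P : Pt W Ω), σ (sC e P) = sC e P := by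
    intro σ e P
    rcases sC_sq (a := e) P with h | h <;> rw [h] <;> simp
  set T : Ω → Ω := fun e => sC e (g (ρ e)) * ρ e t with hT
  refine ⟨T, ρ, hρ, ?_, ?_⟩
  · intro σ e he
    have he' := root σ he
    set τ : Ω ≃ₐ[K] Ω := (ρ (σ e))⁻¹ * (σ * ρ e) with hτ
    have h1 : σ * ρ e = ρ (σ e) * τ := by rw [hτ]; group
    have h3 : τ a = a := by
      rw [hτ, AlgEquiv.mul_apply, AlgEquiv.mul_apply, hρ e he]
      apply (ρ (σ e)).injective
      rw [← AlgEquiv.mul_apply, mul_inv_cancel, AlgEquiv.one_apply, hρ _ he']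
    have h4 : σ (ρ e t) = sC a (g τ) * ρ (σ e) t := by
      rw [← AlgEquiv.mul_apply, h1, AlgEquiv.mul_apply, hk τ h3, map_mul, sgn]
    have h5 : sC (σ e) (g σ) * sC e (g (ρ e)) = sC (σ e) (g (ρ (σ e))) * sC a (g τ) := by
      have e1 : sC (σ e) (g (σ * ρ e)) = sC (σ e) (g σ) * sC e (g (ρ e)) := by
        rw [hmul, add he' (hg2 _) (tw2 _ (hg2 _)), sga]
      have e2 : sC (σ e) (g (ρ (σ e) * τ)) = sC (σ e) (g (ρ (σ e))) * sC a (g τ) := by
        rw [hmul, add he' (hg2 _) (tw2 _ (hg2 _))]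
        congr 1
        have := sga (ρ (σ e)) a (g τ)
        rw [hρ _ he'] at this
        exact this
      rw [← e1, ← e2, h1]
    have m1 := sC_mul_self (a := σ e) (g σ)
    have m2 := sC_mul_self (a := a) (g τ)
    show σ (sC e (g (ρ e)) * ρ e t) = sC (σ e) (g σ) * (sC (σ e) (g (ρ (σ e))) * ρ (σ e) t)
    rw [map_mul, sgn, h4]
    have h6 : sC e (g (ρ e)) * sC a (g τ) = sC (σ e) (g σ) * sC (σ e) (g (ρ (σ e))) := by
      linear_combination (sC (σ e) (g σ) * sC a (g τ)) * h5 -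
        (sC e (g (ρ e)) * sC a (g τ)) * m1 + (sC (σ e) (g σ) * sC (σ e) (g (ρ (σ e)))) * m2
    linear_combination (ρ (σ e) t) * h6
  · intro e he φ hφ
    have h1 : φ = ((ρ e : Ω ≃ₐ[K] Ω) : Ω →ₐ[K] Ω).comp (IsScalarTower.toAlgHom K L Ω) := by
      apply hom_eq htop
      show φ θ = ρ e (algebraMap L Ω θ)
      rw [hθ, hρ _ he, hφ]
    have h3 : φ z = ρ e (algebraMap L Ω z) := DFunLike.congr_fun h1 z
    rw [h3, ← hz, map_pow]
    show (sC e (g (ρ e)) * ρ e t) ^ 2 = _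
    have m1 := sC_mul_self (a := e) (g (ρ e))
    linear_combination ((ρ e t) ^ 2) * m1

end T

section norm

variable {K L Ω : Type} [Field K] [Field L] [Field Ω] [Algebra K L] [Algebra L Ω] [Algebra K Ω]
  [IsScalarTower K L Ω] [IsAlgClosed Ω] [IsGalois K Ω] [FiniteDimensional K L]
  [Algebra.IsSeparable K L] {W : WeierstrassCurve K} {a b c : Ω}

/-- The norm of the Kummer generator is a square. -/
theorem norm_sq (hC : IsC (W.baseChange Ω).toAffine a b c) {θ : L}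
    (hθ : algebraMap L Ω θ = a) (htop : IntermediateField.adjoin K {θ} = ⊤)
    {g : (Ω ≃ₐ[K] Ω) → Pt W Ω} (hg2 : ∀ τ, g τ + g τ = 0) {z : L} {T : Ω → Ω}
    {ρ : Ω → (Ω ≃ₐ[K] Ω)} (hρ : ∀ e, (e = a ∨ e = b ∨ e = c) → ρ e a = e)
    (claim : ∀ (σ : Ω ≃ₐ[K] Ω) (e : Ω), (e = a ∨ e = b ∨ e = c) →
        σ (T e) = sC (σ e) (g σ) * T (σ e))
    (hsq : ∀ e, (e = a ∨ e = b ∨ e = c) → ∀ φ : L →ₐ[K] Ω, φ θ = e → T e ^ 2 = φ z) :
    IsSquare (Algebra.norm K z) := by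
  have root : ∀ (σ : Ω ≃ₐ[K] Ω) {e : Ω}, (e = a ∨ e = b ∨ e = c) →
      (σ e = a ∨ σ e = b ∨ σ e = c) := fun σ e he => hC.act_root (ak σ) he
  set S : Finset Ω := {a, b, c} with hS
  have memS : ∀ e, e ∈ S ↔ (e = a ∨ e = b ∨ e = c) := by
    intro e
    rw [hS]
    simp
  have prodS : ∀ F : Ω → Ω, ∏ e ∈ S, F e = F a * F b * F c := by
    intro F
    rw [hS, Finset.prod_insert, Finset.prod_insert, Finset.prod_singleton, mul_assoc]
    · simpa using hC.bc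
    · simp only [Finset.mem_insert, Finset.mem_singleton, not_or]
      exact ⟨hC.ab, hC.ac⟩
  have perm : ∀ (σ : Ω ≃ₐ[K] Ω) (F : Ω → Ω), ∏ e ∈ S, F (σ e) = ∏ e ∈ S, F e := by
    intro σ F
    refine Finset.prod_bij (fun e _ => σ e) ?_ ?_ ?_ ?_
    · intro e he
      exact (memS _).2 (root σ ((memS e).1 he))
    · intro e _ e' _ h
      exact σ.injective h
    · intro e he
      refine ⟨σ⁻¹ e, (memS _).2 (root σ⁻¹ ((memS e).1 he)), ?_⟩
      rw [← AlgEquiv.mul_apply, mul_inv_cancel]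
      rfl
    · intro e _
      rfl
  have hfix : ∀ σ : Ω ≃ₐ[K] Ω, σ (∏ e ∈ S, T e) = ∏ e ∈ S, T e := by
    intro σ
    rw [map_prod]
    have h1 : ∏ e ∈ S, σ (T e) = ∏ e ∈ S, sC (σ e) (g σ) * T (σ e) :=
      Finset.prod_congr rfl fun e he => claim σ e ((memS e).1 he)
    rw [h1, perm σ (fun e => sC e (g σ) * T e), Finset.prod_mul_distrib,
      prodS (fun e => sC e (g σ)), sC_prod hC (hg2 σ), one_mul]
  obtain ⟨r, hr⟩ : (∏ e ∈ S, T e) ∈ Set.range (algebraMap K Ω) := by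
    rw [InfiniteGalois.mem_range_algebraMap_iff_fixed]
    exact hfix
  refine ⟨r, (algebraMap K Ω).injective ?_⟩
  rw [← sq, map_pow, hr, Algebra.norm_eq_prod_embeddings K Ω z, ← Finset.prod_pow]
  have hcub : cub W θ = 0 := by
    apply (algebraMap L Ω).injective
    rw [map_zero]
    have h3 := cub_map W (IsScalarTower.toAlgHom K L Ω) θ
    have h4 : (IsScalarTower.toAlgHom K L Ω) θ = a := hθ
    rw [h4, hC.root_a] at h3
    exact h3.symm
  have hroot : ∀ φ : L →ₐ[K] Ω, φ θ = a ∨ φ θ = b ∨ φ θ = c := by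
    intro φ
    apply hC.root
    rw [cub_map W φ θ, hcub, map_zero]
  refine Finset.prod_bij (fun φ _ => φ θ) ?_ ?_ ?_ ?_
  · intro φ _
    rw [memS]
    exact hroot φ
  · intro φ _ ψ _ h
    exact hom_eq htop h
  · intro e he
    refine ⟨((ρ e : Ω ≃ₐ[K] Ω) : Ω →ₐ[K] Ω).comp (IsScalarTower.toAlgHom K L Ω),
      Finset.mem_univ _, ?_⟩
    show ρ e (algebraMap L Ω θ) = e
    rw [hθ, hρ e ((memS e).1 he)]
  · intro φ _
    exact (hsq (φ θ) (hroot φ) φ rfl).symm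

end norm

end Pool.Agent.K4H55.BK
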