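import Pool.Agent.K4H55.BK.Odd

/-!
The exact central values of the twists and their congruence.
-/

set_option autoImplicit false

namespace Pool.Agent.K4H55.BK

open NumberField IsDedekindDomain Filter Topology
open Pool.Agent.K4H55.BI

section ord

variable {O : Type} [CommRing O] {D : BI.Ord O} {n : O} {c : O → ℂ} {C : ℝ} {w : ℂ}
  {M : Submodule ℤ ℂ}

/-- the square of the Gauss sum -/
lemma gs_sq (D : BI.Ord O) [IsDomain O] {T : Finset O} (hT : Fam T) (hneg : chi T (-1) = 1) :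
    gs D T 1 * gs D T 1 = D.nm (md T) := by
  classical
  have hm := hT.md_ne
  have hιm : D.ι (md T) ≠ 0 := fun h => hm (D.inj (by rw [h, map_zero]))
  have hS := rs_CRS D hm
  have h1 : ∑ α ∈ rs D (md T), gs D T α * ee D.δ (-(D.ι α / D.ι (md T))) =
      gs D T 1 * gs D T 1 := by
    have hprd := (chi_prd (T := T) (m := md T) fun p hp => dvd_md hp).mul (ee_prd D hιm 1)
    have h2 := CRS.sum_unit (u := -1) (isCoprime_one_left.neg_left) hS hprd
    have h3 : gs D T 1 = ∑ x ∈ rs D (md T), chi T x * ee D.δ (-(D.ι x / D.ι (md T))) := by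
      unfold gs
      rw [← h2]
      refine Finset.sum_congr rfl fun x _ => ?_
      rw [chi_mul D hT, hneg, one_mul, one_mul, map_mul, map_neg, map_one]
      congr 2
      ring
    conv_rhs => rw [h3]
    rw [Finset.sum_mul]
    refine Finset.sum_congr rfl fun α _ => ?_
    rw [gs_eq D hT α, ← h3]
    ring
  have h2 : ∑ α ∈ rs D (md T), gs D T α * ee D.δ (-(D.ι α / D.ι (md T))) =
      ∑ x ∈ rs D (md T), chi T x * ∑ α ∈ rs D (md T), ee D.δ (D.ι (α * (x - 1)) / D.ι (md T)) := by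
    unfold gs
    simp only [Finset.sum_mul, Finset.mul_sum]
    rw [Finset.sum_comm]
    refine Finset.sum_congr rfl fun x _ => Finset.sum_congr rfl fun α _ => ?_
    rw [mul_assoc, ← ee_add]
    congr 2
    rw [mul_sub, map_sub, mul_one]
    ring
  have h3 : ∀ x ∈ rs D (md T), chi T x * ∑ α ∈ rs D (md T),
      ee D.δ (D.ι (α * (x - 1)) / D.ι (md T)) = if md T ∣ x - 1 then (D.nm (md T) : ℂ) else 0 := by
    intro x _
    rw [orth D hm hS]
    by_cases hx : md T ∣ x - 1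
    · rw [if_pos hx, chi_prd (T := T) (m := md T) (fun p hp => dvd_md hp) x 1 hx,
        chi_one hT, one_mul]
    · rw [if_neg hx, mul_zero]
  rw [h2, Finset.sum_congr rfl h3] at h1
  obtain ⟨x1, hx1, hd⟩ := hS.ex 1
  have hd' : md T ∣ x1 - 1 := by
    have : x1 - 1 = -(1 - x1) := by ring
    rw [this, dvd_neg]
    exact hd
  have h4 : ∀ x ∈ rs D (md T), x ≠ x1 → (if md T ∣ x - 1 then (D.nm (md T) : ℂ) else 0) = 0 := by
    intro x hx hne
    refine if_neg fun h => hne (hS.un x hx x1 hx1 ?_)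
    have : x - x1 = (x - 1) - (x1 - 1) := by ring
    rw [this]
    exact dvd_sub h hd'
  rw [Finset.sum_eq_single x1 h4 (fun h => absurd hx1 h), if_pos hd'] at h1
  exact h1.symm

lemma gs_empty (D : BI.Ord O) [IsDomain O] : gs D (∅ : Finset O) 1 = 1 := by
  classical
  unfold gs
  have hm : md (∅ : Finset O) = 1 := by unfold md; simp
  rw [hm]
  have h1 := rs_CRS D (one_ne_zero (α := O))
  obtain ⟨x, hx, -⟩ := h1.ex 0
  have h2 : rs D 1 = {x} := by
    ext y
    rw [Finset.mem_singleton]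
    constructor
    · intro hy
      exact h1.un y hy x hx (one_dvd _)
    · rintro rfl
      exact hx
  rw [h2, Finset.sum_singleton, map_one, div_one, one_mul, D.dual1, mul_one]
  unfold chi
  simp

/-- the congruence of the values -/
theorem bt_cong [IsDomain O] (h : MG D n c C w M)
    (hcu : ∀ u : O, IsUnit u → ∀ x, c (u * x) = c x) {H : Finset O} (hH : H4 H)
    {T : Finset O} (hT : Fam T) (hne : T.Nonempty)
    (hn : ∀ p ∈ T, ¬ p ∣ n) (hc : ∀ q ∈ T, ∃ m : ℤ, c q = m ∧ m % 2 = 1)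
    (hu : ∀ u : O, IsUnit u → chi T u = 1) {Λ : AddSubgroup ℂ}
    (hΛ : ∀ x m : O, m ≠ 0 → IsCoprime m n → fv D c (D.ι x / D.ι m) ∈ Λ) :
    (∃ y ∈ Λ, fv D c 0 = H.card * y) ∧
      ∃ y ∈ Λ, bt D (fv D c) T = fv D c 0 + 2 * H.card * y := by
  classical
  set f := fv D c with hf
  have hf0 : f 0 ∈ Λ := by
    have := hΛ 0 1 one_ne_zero isCoprime_one_left
    rwa [map_zero, zero_div] at this
  have h1 : st D f T ∅ = (∏ q ∈ T, (c q - 2)) * f 0 := by
    have h2 := st_prod h (T := ∅) T (Finset.disjoint_empty_right T)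
      (by rw [Finset.union_empty]; exact hT) (by rw [Finset.union_empty]; exact hn)
    rw [Finset.union_empty] at h2
    rw [h2, bt_empty f (fun z y => fv_periodic D c z y)]
    congr 1
    refine Finset.prod_congr rfl fun q _ => ?_
    unfold chi
    simp
  have hcopm : IsCoprime (md T) n := md_coprime D hT hn
  have hιm : D.ι (md T) ≠ 0 := fun h0 => hT.md_ne (D.inj (by rw [h0, map_zero]))
  have hfp : Prd (md T) fun x => f (D.ι x / D.ι (md T)) := by
    rintro x y ⟨k, hk⟩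
    have e : D.ι x / D.ι (md T) = D.ι y / D.ι (md T) + D.ι k := by
      have h3 : D.ι x = D.ι y + D.ι (md T) * D.ι k := by
        rw [← map_mul, ← map_add]
        congr 1
        linear_combination hk
      rw [h3]
      field_simp
    show f (D.ι x / D.ι (md T)) = f (D.ι y / D.ι (md T))
    rw [e]
    exact fv_periodic D c _ k
  have hχp : Prd (md T) (chi T) := chi_prd fun p hp => dvd_md hp
  have hun : ∀ u ∈ H, IsUnit u := fun u hu =>
    IsUnit.of_mul_eq_one (u ^ 3) (by rw [← pow_succ']; exact (hH.mem u).1 hu)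
  -- a general sum
  have key : ∀ e : ℂ, (e = 1 ∨ e = -1) → ∃ y ∈ Λ, ∑ x ∈ rs D (md T),
      (if chi T x = e then f (D.ι x / D.ι (md T)) else 0) = H.card * y := by
    intro e he
    have he0 : e ≠ 0 := by rcases he with rfl | rfl <;> norm_num
    refine orb hH hT hne (rs_CRS D hT.md_ne) ?_ (fun u huH x => ?_) (fun x p hp hd => ?_)
      (fun x => ?_)
    · intro x y hxy
      have h3 := hfp x y hxy
      have h4 := hχp x y hxy
      simp only at h3
      simp only [h4, h3]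
    · have h3 := hun u huH
      have h6 : f (D.ι u * (D.ι x / D.ι (md T))) = f (D.ι x / D.ι (md T)) := fv_unit hcu h3 _
      rw [chi_mul D hT, hu u h3, one_mul, map_mul, mul_div_assoc, h6]
    · rw [chi_zero hp hd, if_neg he0.symm]
    · split_ifs
      · exact hΛ x _ hT.md_ne hcopm
      · exact Λ.zero_mem
  obtain ⟨y1, hy1, h2⟩ := key 1 (Or.inl rfl)
  obtain ⟨y2, hy2, h3⟩ := key (-1) (Or.inr rfl)
  have h4 : ∃ k : ℤ, ∏ q ∈ T, (c q - 2) = ((1 + 2 * k : ℤ) : ℂ) := by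
    have key : ∀ S : Finset O, (∀ q ∈ S, ∃ m : ℤ, c q = m ∧ m % 2 = 1) →
        ∃ k : ℤ, ∏ q ∈ S, (c q - 2) = ((1 + 2 * k : ℤ) : ℂ) := by
      intro S
      induction S using Finset.induction_on with
      | empty => intro _; exact ⟨0, by simp⟩
      | insert q S hq ih =>
        intro hS
        obtain ⟨k, hk⟩ := ih fun q' hq' => hS q' (Finset.mem_insert_of_mem hq')
        obtain ⟨m, hm, hm2⟩ := hS q (Finset.mem_insert_self q S)
        obtain ⟨l, rfl⟩ : ∃ l : ℤ, m = 2 * l + 1 := ⟨m / 2, by omega⟩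
        refine ⟨k + (l - 1) * (1 + 2 * k), ?_⟩
        rw [Finset.prod_insert hq, hk, hm]
        push_cast
        ring
    exact key T hc
  obtain ⟨k, hk⟩ := h4
  -- the two sums
  have h5 : st D f T ∅ = H.card * y1 + H.card * y2 := by
    rw [← h2, ← h3, ← Finset.sum_add_distrib]
    unfold st
    refine Finset.sum_congr rfl fun x _ => ?_
    have h5 : chi (∅ : Finset O) x = 1 := by unfold chi; simp
    by_cases hx : ∀ p ∈ T, ¬ p ∣ x
    · rcases mul_self_eq_one_iff.1 (chi_sq hx) with h6 | h6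
      · rw [h6, if_pos rfl, if_neg (by norm_num), h5, cop_one_of hx]
        ring
      · rw [h6, if_neg (by norm_num), if_pos rfl, h5, cop_one_of hx]
        ring
    · push Not at hx
      obtain ⟨p, hp, hd⟩ := hx
      rw [cop_zero_of hp hd, chi_zero hp hd, if_neg (by norm_num), if_neg (by norm_num)]
      ring
  have h6 : bt D f T = H.card * y1 - H.card * y2 := by
    rw [← h2, ← h3, ← Finset.sum_sub_distrib]
    unfold bt
    refine Finset.sum_congr rfl fun x _ => ?_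
    by_cases hx : ∀ p ∈ T, ¬ p ∣ x
    · rcases mul_self_eq_one_iff.1 (chi_sq hx) with h6 | h6
      · rw [h6, if_pos rfl, if_neg (by norm_num)]
        ring
      · rw [h6, if_neg (by norm_num), if_pos rfl]
        ring
    · push Not at hx
      obtain ⟨p, hp, hd⟩ := hx
      rw [chi_zero hp hd, if_neg (by norm_num), if_neg (by norm_num)]
      ring
  obtain ⟨e, he⟩ := hH.card_dvd
  obtain ⟨j, hj⟩ : ∃ j : ℤ, (1 + 2 * k) * (1 + 2 * k) = 1 + 4 * j :=
    ⟨k + k * k, by ring⟩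
  rw [h1, hk] at h5
  have hjC : ((1 + 2 * k : ℤ) : ℂ) * ((1 + 2 * k : ℤ) : ℂ) = 1 + 4 * (j : ℂ) := by
    exact_mod_cast hj
  have heC : (4 : ℂ) = (H.card : ℂ) * (e : ℂ) := by exact_mod_cast he
  -- `Φ(0)` is divisible by `w`
  have h0 : f 0 = H.card * ((1 + 2 * k) • (y1 + y2) - (e * j) • f 0) := by
    rw [zsmul_eq_mul, zsmul_eq_mul]
    push_cast at h5 hjC ⊢
    linear_combination (1 + 2 * (k : ℂ)) * h5 - f 0 * hjC - (j : ℂ) * f 0 * heC
  set y0 := (1 + 2 * k) • (y1 + y2) - (e * j) • f 0 with hy0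
  have hy0m : y0 ∈ Λ := Λ.sub_mem (Λ.zsmul_mem (Λ.add_mem hy1 hy2) _) (Λ.zsmul_mem hf0 _)
  refine ⟨⟨y0, hy0m, h0⟩, k • y0 - y2, Λ.sub_mem (Λ.zsmul_mem hy0m _) hy2, ?_⟩
  rw [h6, zsmul_eq_mul]
  push_cast at h5
  have h7 : (H.card : ℂ) * y1 = (1 + 2 * (k : ℂ)) * f 0 - H.card * y2 := by
    linear_combination -h5
  rw [h7]
  linear_combination 2 * (k : ℂ) * h0

end ord

variable {K : Type} [Field K] [NumberField K] {σ : K →+* ℂ} {δ : K} {n : 𝓞 K}
  {c : Ideal (𝓞 K) → ℂ}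

/-- the exact value -/
theorem nvt_exact (h : IQ K σ δ) [hP : IsPrincipalIdealRing (𝓞 K)] (hf : BF σ δ n c)
    [DecidableEq (𝓞 K)]
    {T : Finset (HeightOneSpectrum (𝓞 K))} (hT : Fam (T.image gen))
    (hu : ∀ u, IsUnit u → chiT T u = 1) (hn : ∀ v ∈ T, n ∉ v.asIdeal) :
    ∃ G : ℂ → ℂ, Differentiable ℂ G ∧ (∀ s : ℂ, 2 < s.re → HasProd (efac n c T s) (G s)) ∧
      gs (ordK h) (T.image gen) 1 * G 1 = kap (ordK h) / nu (𝓞 K) *
        bt (ordK h) (fv (ordK h) fun x => c (Ideal.span {x})) (T.image gen) := by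
  classical
  obtain ⟨C, w, κ, κW, hN⟩ := hf.newf h
  have hMG := hN.mg
  obtain ⟨G, hG1, hG2, hG3⟩ := twist hMG.toMF hT (fun p hp hd => by
    obtain ⟨v, hv, rfl⟩ := Finset.mem_image.1 hp
    exact hn v hv (gen_dvd.1 hd)) (by
      rw [chi_gen]
      exact hu _ isUnit_one.neg)
  have hg := gs_ne (ordK h) hT
  have hnu := nu_ne (ordK h)
  have hsum : ∀ s : ℂ, 2 < s.re → Summable fun x => ‖c (Ideal.span {x})‖ *
      ((ordK h).nm x : ℝ) ^ (-s.re) := by
    intro s hs
    have hC := hN.cff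
    refine Summable.of_nonneg_of_le (fun x => by positivity) (fun x => ?_)
      (((ordK h).summ (s.re - 1) (by linarith)).mul_left C)
    by_cases hx : x = 0
    · subst hx
      rw [hC.zero, norm_zero, zero_mul, (ordK h).nm_zero, Nat.cast_zero,
        Real.zero_rpow (by linarith), mul_zero]
    · have hn : (0 : ℝ) < (ordK h).nm x := by exact_mod_cast (ordK h).nm_pos hx
      have h2 := hC.bd x
      calc ‖c (Ideal.span {x})‖ * ((ordK h).nm x : ℝ) ^ (-s.re) ≤
            (C * (ordK h).nm x) * ((ordK h).nm x : ℝ) ^ (-s.re) := by gcongr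
        _ = C * ((ordK h).nm x : ℝ) ^ (-(s.re - 1)) := by
          rw [mul_assoc]
          congr 1
          nth_rewrite 1 [← Real.rpow_one ((ordK h).nm x : ℝ)]
          rw [← Real.rpow_add hn]
          ring_nf
  refine ⟨fun s => G s / nu (𝓞 K), hG1.div_const _, fun s hs => ?_, ?_⟩
  · simp only
    rw [hG2 s (by linarith) (hsum s hs)]
    exact euler_tw h hf hT hu hs
  · simp only
    rw [hG3]
    show gs (ordK h) (Finset.image gen T) 1 * (kap (ordK h) / gs (ordK h) (Finset.image gen T) 1 *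
      bt (ordK h) (fv (ordK h) fun x => c (Ideal.span {x})) (T.image gen) / nu (𝓞 K)) = _
    field_simp

/-- the value as a congruence -/
theorem nvt_val (h : IQ K σ δ) [hP : IsPrincipalIdealRing (𝓞 K)] (hf : BF σ δ n c)
    {T : Finset (HeightOneSpectrum (𝓞 K))} (hT : ∀ v ∈ T, (2 : 𝓞 K) ∉ v.asIdeal ∧
      n ∉ v.asIdeal ∧ ∃ m : ℤ, c v.asIdeal = m ∧ m % 2 = 1)
    (hu : ∀ u, IsUnit u → chiT T u = 1) {z : ℂ}
    (hz : Tendsto (fun t => Fser σ δ c 0 t) (𝓝[>] 0) (𝓝 z)) {w : ℂ}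
    (hw : w = (Nat.card {u : 𝓞 K // u ^ 4 = 1} : ℂ)) :
    ∃ G : ℂ → ℂ, Differentiable ℂ G ∧ (∀ s : ℂ, 2 < s.re → HasProd (efac n c T s) (G s)) ∧
      ∃ g : ℂ, g * g = NT T ∧ (∃ y ∈ AddSubgroup.closure (Vals σ δ n c),
        g * G 1 = kap (ordK h) / nu (𝓞 K) * (z + 2 * w * y)) ∧
      (T.Nonempty → ∃ y ∈ AddSubgroup.closure (Vals σ δ n c), z = w * y) ∧
      (T = ∅ → g = 1) := by
  classical
  obtain ⟨C, w0, κ, κW, hN⟩ := hf.newf h
  have hMG := hN.mg
  have hfam : Fam (T.image gen) := fam_of (A := {v | (2 : 𝓞 K) ∉ v.asIdeal}) (fun v hv => hv)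
    (fun v hv => (hT v hv).1)
  obtain ⟨G, hG1, hG2, hG3⟩ := nvt_exact h hf hfam hu fun v hv => (hT v hv).2.1
  have h0 : fv (ordK h) (fun x => c (Ideal.span {x})) 0 = z := by
    rw [Fser_eq h] at hz
    exact fv_eq hz
  have hlim : ∀ x m : 𝓞 K, m ≠ 0 → IsCoprime m n →
      fv (ordK h) (fun x => c (Ideal.span {x})) ((ordK h).ι x / (ordK h).ι m) ∈
        Vals σ δ n c := by
    intro x m hm hmn
    refine ⟨x, m, hm, hmn, ?_⟩
    rw [Fser_eq h]
    exact hMG.tendsto hm hmn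
  refine ⟨G, hG1, hG2, gs (ordK h) (T.image gen) 1, ?_, ?_⟩
  · rw [gs_sq (ordK h) hfam (by rw [chi_gen]; exact hu _ isUnit_one.neg)]
    congr 1
    unfold md NT
    have h1 : ∀ S : Finset (𝓞 K), (ordK h).nm (∏ p ∈ S, p) = ∏ p ∈ S, (ordK h).nm p := by
      intro S
      induction S using Finset.induction_on with
      | empty => simp [nm_one]
      | insert q S hq ih => rw [Finset.prod_insert hq, (ordK h).nm_mul, ih, Finset.prod_insert hq]
    rw [h1, Finset.prod_image fun _ _ _ _ h => gen_inj h]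
    refine Finset.prod_congr rfl fun v _ => ?_
    rw [← gen_span v, Ideal.absNorm_span_singleton]
    rfl
  · rw [hG3]
    rcases T.eq_empty_or_nonempty with hT0 | hne
    · subst hT0
      refine ⟨⟨0, AddSubgroup.zero_mem _, ?_⟩, fun h => absurd h Finset.not_nonempty_empty,
        fun _ => by rw [Finset.image_empty]; exact gs_empty _⟩
      rw [Finset.image_empty, bt_empty _ (fun z y => fv_periodic (ordK h) _ z y), h0]
      ring
    · obtain ⟨H, hH⟩ := exists_H4 (O := 𝓞 K)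
      obtain ⟨⟨y0, hy0, h1⟩, y, hy, h2⟩ := bt_cong hMG (fun u hu x => by
        have h1 : Ideal.span {u * x} = Ideal.span {x} := Ideal.span_singleton_mul_left_unit hu x
        simp only [h1]) hH hfam (hne.image gen) (by
        intro p hp hd
        obtain ⟨v, hv, rfl⟩ := Finset.mem_image.1 hp
        exact (hT v hv).2.1 (gen_dvd.1 hd)) (by
        intro p hp
        obtain ⟨v, hv, rfl⟩ := Finset.mem_image.1 hp
        rw [gen_span]
        exact (hT v hv).2.2) (fun u hu1 => by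
        rw [chi_gen]
        exact hu u hu1) (Λ := AddSubgroup.closure (Vals σ δ n c))
        (fun x m hm hmn => AddSubgroup.subset_closure (hlim x m hm hmn))
      rw [h0] at h1 h2
      rw [hw, hH.card_eq]
      exact ⟨⟨y, hy, by rw [h2]⟩, fun _ => ⟨y0, hy0, h1⟩, fun h => absurd h hne.ne_empty⟩

/-- the number of the units -/
lemma nu_card (h : IQ K σ δ) : nu (𝓞 K) = (Nat.card (𝓞 K)ˣ : ℂ) := by
  classical
  have hfin := unit_fin (ordK h)
  have e1 : Nat.card (𝓞 K)ˣ = hfin.toFinset.card := by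
    rw [← Set.ncard_eq_toFinset_card _ hfin]
    exact Nat.card_congr ⟨fun u => ⟨u, u.isUnit⟩, fun u => u.2.unit, fun u => by
      ext; rfl, fun u => rfl⟩
  rw [e1]
  unfold nu
  have h1 : ∀ x ∉ hfin.toFinset, (if IsUnit x then (1 : ℂ) else 0) = 0 := by
    intro x hx
    rw [Set.Finite.mem_toFinset] at hx
    exact if_neg hx
  rw [tsum_eq_sum h1]
  have h2 : ∀ x ∈ hfin.toFinset, (if IsUnit x then (1 : ℂ) else 0) = 1 := by
    intro x hx
    rw [Set.Finite.mem_toFinset] at hx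
    exact if_pos hx
  rw [Finset.sum_congr rfl h2, Finset.sum_const, nsmul_eq_mul, mul_one]

section curve

open Pool.Agent.K4H55.BD
open Pool.Agent.Y18.BSD (dd disc dd_ne_zero)

/-- the norm of the conductor -/
lemma NT_pl (h : IQ K σ δ) {T : Finset ℕ} (hT : ∀ q ∈ T, Spl h q) :
    NT (pl K T) = dd T ^ 2 := by
  classical
  induction T using Finset.induction_on with
  | empty =>
    unfold NT pl dd
    simp
  | insert q T hq ih =>
    have hq' := hT q (Finset.mem_insert_self q T)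
    have hT' : ∀ q ∈ T, Spl h q := fun q hq => hT q (Finset.mem_insert_of_mem hq)
    have hTp : ∀ q ∈ T, q.Prime := fun q hq => (hT' q hq).pr
    have hsp : ∀ q' ∈ ({q} : Finset ℕ), q'.Prime := fun q' h' => by
      rw [Finset.mem_singleton.1 h']; exact hq'.pr
    have h1 : pl K (insert q T) = pl K {q} ∪ pl K T := by
      unfold pl
      rw [Finset.biUnion_insert, Finset.singleton_biUnion]
    have h2 : Disjoint (pl K {q}) (pl K T) := by
      rw [Finset.disjoint_left]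
      intro v hv hv'
      obtain ⟨q1, hq1, hv1⟩ := (mem_pl hsp).1 hv
      obtain ⟨q2, hq2, hv2⟩ := (mem_pl hTp).1 hv'
      rw [Finset.mem_singleton.1 hq1] at hv1
      rw [← uniq_over hq'.pr (hTp q2 hq2) hv1 hv2] at hq2
      exact hq hq2
    have h3 : NT (pl K (insert q T)) = NT (pl K {q}) * NT (pl K T) := by
      unfold NT
      rw [h1, Finset.prod_union h2]
    obtain ⟨v, hv⟩ := exists_over h hq'.pr
    have h4 : pl K {q} = {v, tv h v} := by
      ext w
      rw [mem_pl hsp, Finset.mem_insert, Finset.mem_singleton]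
      constructor
      · rintro ⟨q', hq', hw⟩
        rw [Finset.mem_singleton.1 hq'] at hw
        exact eq_or_tv h (hT q (Finset.mem_insert_self q T)) hv hw
      · rintro (rfl | rfl)
        · exact ⟨q, Finset.mem_singleton_self q, hv⟩
        · exact ⟨q, Finset.mem_singleton_self q, mem_tv_nat h hv⟩
    have h5 : NT (pl K {q}) = q ^ 2 := by
      unfold NT
      rw [h4, Finset.prod_pair (tv_ne h hq' hv).symm, hq'.deg v hv,
        hq'.deg (tv h v) (mem_tv_nat h hv), pow_two]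
    rw [h3, h5, ih hT']
    unfold dd
    rw [Finset.prod_insert hq, mul_pow]

/-- the values of the twists of the class -/
theorem nve_val (h : IQ K σ δ) [hP : IsPrincipalIdealRing (𝓞 K)] {a b : 𝓞 K}
    (hx : 2 * (4 * a ^ 3 + 27 * b ^ 2) ≠ 0) (hf : BF σ δ n c)
    (hc : ∀ v : HeightOneSpectrum (𝓞 K), 2 * (4 * a ^ 3 + 27 * b ^ 2) ∉ v.asIdeal →
      n ∉ v.asIdeal ∧ c v.asIdeal = (Ideal.absNorm v.asIdeal : ℂ) - pv a b v) {z : ℂ}
    (hz : Tendsto (fun t => Fser σ δ c 0 t) (𝓝[>] 0) (𝓝 z)) {w : ℂ}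
    (hw : w = (Nat.card {u : 𝓞 K // u ^ 4 = 1} : ℂ)) {pos : Prop} {P : Finset ℕ} {D : ℤ}
    (hD : AB.DC (QE h a b n) pos (P ∪ P0 h hx) D) :
    ∃ G : ℂ → ℂ, Differentiable ℂ G ∧ (∀ s : ℂ, 2 < s.re → HasProd (ef a b n c D s) (G s)) ∧
      ∃ y ∈ AddSubgroup.closure (Vals σ δ n c), (D.natAbs : ℂ) * G 1 =
        (2 * Real.pi / ‖σ δ‖) ^ 2 / (Nat.card (𝓞 K)ˣ : ℂ) * (z + 2 * w * y) := by
  classical
  have hg := hD.gt
  have hdD := AB.disc_pf hD.sqf hD.one
  have hddD := AB.dd_pf hD.sqf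
  set T := D.natAbs.primeFactors with hT
  have hadm : ∀ q ∈ T, q ∈ QE h a b n := fun q hq => hg.adm q hq
  have hspl : ∀ q ∈ T, Spl h q := fun q hq => (hadm q hq).1
  have hTp : ∀ q ∈ T, q.Prime := fun q hq => (hspl q hq).pr
  obtain ⟨G, h1, h2, g, h3, ⟨y, hy, h4⟩, h5, h5'⟩ := nvt_val h hf (T := pl K T) (by
    intro v hv
    obtain ⟨q, hq, hqv⟩ := (mem_pl hTp).1 hv
    obtain ⟨h4, h5, h6⟩ := (hadm q hq).2 v hqv
    have h7 := two_notMem (hspl q hq).pr (hspl q hq).odd hqv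
    refine ⟨h7, h5, (q : ℤ) - pv a b v, ?_, ?_⟩
    · rw [(hc v h4).2, (hspl q hq).deg v hqv]
      push_cast
      ring
    · obtain ⟨k, hk⟩ := pv_even h7 h6
      have h8 := (hspl q hq).pr.odd_of_ne_two (hspl q hq).odd
      rw [Nat.odd_iff] at h8
      omega) (fun u hu => chiT_unit h hspl hu) hz hw
  have e1 : (kap (ordK h) : ℂ) / nu (𝓞 K) =
      (2 * Real.pi / ‖σ δ‖) ^ 2 / (Nat.card (𝓞 K)ˣ : ℂ) := by
    rw [nu_card h]
    unfold kap
    have e2 : (ordK h).δ = σ δ := rfl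
    rw [e2]
    push_cast
    rfl
  rw [e1] at h4
  refine ⟨G, h1, fun s hs => ?_, ?_⟩
  · have h4 := h2 s hs
    have h5 : ef a b n c D s = efac n c (pl K T) s := by
      funext v
      rw [← hdD]
      refine ef_eq h hspl (fun p hp hpv => ?_) hc s v
      have h6 := hD.loc p (Finset.mem_union_right _ ((mem_P0 h hx).2 ⟨hp, hpv⟩))
      rw [← AB.dd_pf hD.sqf] at h6
      exact h6
    rw [h5]
    exact h4
  · have h6 : g * g = (D.natAbs : ℂ) * D.natAbs := by
      rw [h3, NT_pl h hspl, hddD]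
      push_cast
      ring
    rcases mul_self_eq_mul_self_iff.1 h6 with h7 | h7
    · exact ⟨y, hy, by rw [← h7]; exact h4⟩
    · by_cases hne : (pl K T).Nonempty
      · obtain ⟨y0, hy0, h8⟩ := h5 hne
        refine ⟨-(y + y0), AddSubgroup.neg_mem _ (AddSubgroup.add_mem _ hy hy0), ?_⟩
        have h9 : (D.natAbs : ℂ) = -g := by rw [h7, neg_neg]
        rw [h9, neg_mul, h4]
        linear_combination (-2 * ((2 * (Real.pi : ℂ) / ‖σ δ‖) ^ 2 / (Nat.card (𝓞 K)ˣ : ℂ))) * h8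
      · rw [Finset.not_nonempty_iff_eq_empty] at hne
        exfalso
        rw [h5' hne] at h7
        have h8 : (1 : ℝ) + D.natAbs = 0 := by
          have h9 : (1 : ℂ) + D.natAbs = 0 := by linear_combination h7
          exact_mod_cast h9
        have h9 : (0 : ℝ) ≤ D.natAbs := Nat.cast_nonneg _
        linarith

/-- the value of `Φ` at the cusp `0` -/
theorem exists_z0 (h : IQ K σ δ) [hP : IsPrincipalIdealRing (𝓞 K)] (hf : BF σ δ n c) :
    ∃ z ∈ Vals σ δ n c, Tendsto (fun t => Fser σ δ c 0 t) (𝓝[>] 0) (𝓝 z) := by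
  classical
  obtain ⟨C, w, κ, κW, hN⟩ := hf.newf h
  have hMG := hN.mg
  have h1 := hMG.tendsto (x := 0) (m := 1) one_ne_zero isCoprime_one_left
  rw [map_zero, zero_div] at h1
  have h2 : Tendsto (fun t => Fser σ δ c 0 t) (𝓝[>] 0)
      (𝓝 (fv (ordK h) (fun x => c (Ideal.span {x})) 0)) := by
    rw [Fser_eq h]
    exact h1
  refine ⟨_, ⟨0, 1, one_ne_zero, isCoprime_one_left, ?_⟩, h2⟩
  have e : σ ((0 : 𝓞 K) : K) / σ ((1 : 𝓞 K) : K) = 0 := by simp
  rw [e]
  exact h2

/-- the value of the curve itself -/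
theorem val_one (h : IQ K σ δ) [hP : IsPrincipalIdealRing (𝓞 K)] {a b : 𝓞 K}
    (hf : BF σ δ n c)
    (hc : ∀ v : HeightOneSpectrum (𝓞 K), 2 * (4 * a ^ 3 + 27 * b ^ 2) ∉ v.asIdeal →
      n ∉ v.asIdeal ∧ c v.asIdeal = (Ideal.absNorm v.asIdeal : ℂ) - pv a b v) {z : ℂ}
    (hz : Tendsto (fun t => Fser σ δ c 0 t) (𝓝[>] 0) (𝓝 z)) :
    ∃ G : ℂ → ℂ, Differentiable ℂ G ∧ (∀ s : ℂ, 2 < s.re → HasProd (ef a b n c 1 s) (G s)) ∧
      G 1 = (2 * Real.pi / ‖σ δ‖) ^ 2 / (Nat.card (𝓞 K)ˣ : ℂ) * z := by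
  classical
  have hpl0 : pl K ∅ = ∅ := by unfold pl; simp
  have hfam : Fam ((∅ : Finset (HeightOneSpectrum (𝓞 K))).image gen) :=
    fam_of (A := {v | (2 : 𝓞 K) ∉ v.asIdeal}) (fun v hv => hv)
      (fun v hv => absurd hv (Finset.notMem_empty v))
  obtain ⟨G, h1, h2, h3⟩ := nvt_exact h hf hfam (fun u _ => by unfold chiT; simp)
    fun v hv => absurd hv (Finset.notMem_empty v)
  have h0 : fv (ordK h) (fun x => c (Ideal.span {x})) 0 = z := by
    rw [Fser_eq h] at hz
    exact fv_eq hz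
  rw [Finset.image_empty, gs_empty, one_mul, bt_empty _ (fun z y => fv_periodic (ordK h) _ z y),
    h0] at h3
  have e1 : (kap (ordK h) : ℂ) / nu (𝓞 K) =
      (2 * Real.pi / ‖σ δ‖) ^ 2 / (Nat.card (𝓞 K)ˣ : ℂ) := by
    rw [nu_card h]
    unfold kap
    have e2 : (ordK h).δ = σ δ := rfl
    rw [e2]
    push_cast
    rfl
  rw [e1] at h3
  refine ⟨G, h1, fun s hs => ?_, h3⟩
  have h6 := h2 s hs
  have h7 : ef a b n c 1 s = efac n c ∅ s := by
    funext v
    have h8 := ef_eq h (a := a) (b := b) (n := n) (c := c) (T := ∅)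
      (fun q hq => absurd hq (Finset.notMem_empty q)) (fun p _ _ => by unfold dd; simp) hc s v
    rw [hpl0] at h8
    rw [← h8]
    unfold disc
    simp
  rwa [h7]

end curve

end Pool.Agent.K4H55.BK
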